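import Pool.Agent.Lib.MP_65f174_lc.AKE.VF

section

set_option autoImplicit false

/-!
# Equality of leading terms
-/

namespace Pool.Agent.Lib.MP_65f174_lc.AKE

universe u

namespace VF

variable (F : VF.{u})

/-! ### Elementary facts on the valuation -/

lemma v_top_iff {x : F.K} : F.v x = ⊤ ↔ x = 0 := AddValuation.top_iff _

lemma v_ne_top {x : F.K} (hx : x ≠ 0) : F.v x ≠ ⊤ := fun h => hx (F.v_top_iff.mp h)

lemma v_lt_top {x : F.K} (hx : x ≠ 0) : F.v x < ⊤ := lt_top_iff_ne_top.mpr (F.v_ne_top hx)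

lemma v_coe {x : F.K} (hx : x ≠ 0) : ∃ g : F.G, F.v x = (g : WithTop F.G) := by
  obtain ⟨g, hg⟩ := WithTop.ne_top_iff_exists.mp (F.v_ne_top hx)
  exact ⟨g, hg.symm⟩

lemma ne_zero_of_v {x : F.K} {g : F.G} (h : F.v x = (g : WithTop F.G)) : x ≠ 0 := by
  rintro rfl
  rw [AddValuation.map_zero] at h
  exact WithTop.top_ne_coe h

lemma v_mul_le {a x y : F.K} (ha : a ≠ 0) : F.v (a * x) ≤ F.v (a * y) ↔ F.v x ≤ F.v y := by
  obtain ⟨g, hg⟩ := F.v_coe ha
  rw [AddValuation.map_mul, AddValuation.map_mul, hg]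
  exact WithTop.add_le_add_iff_left WithTop.coe_ne_top

lemma v_mul_lt {a x y : F.K} (ha : a ≠ 0) : F.v (a * x) < F.v (a * y) ↔ F.v x < F.v y := by
  rw [← not_le, ← not_le, F.v_mul_le ha]

lemma v_mul_eq {a x y : F.K} (ha : a ≠ 0) : F.v (a * x) = F.v (a * y) ↔ F.v x = F.v y := by
  rw [le_antisymm_iff, le_antisymm_iff, F.v_mul_le ha, F.v_mul_le ha]

lemma v_div_nonneg {x y : F.K} (hy : y ≠ 0) : 0 ≤ F.v (x / y) ↔ F.v y ≤ F.v x := by
  rw [← F.v_mul_le (a := y⁻¹) (inv_ne_zero hy), inv_mul_cancel₀ hy, AddValuation.map_one,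
    div_eq_inv_mul]

lemma v_div_pos {x y : F.K} (hy : y ≠ 0) : 0 < F.v (x / y) ↔ F.v y < F.v x := by
  rw [← F.v_mul_lt (a := y⁻¹) (inv_ne_zero hy), inv_mul_cancel₀ hy, AddValuation.map_one,
    div_eq_inv_mul]

lemma v_div_eq {x y : F.K} (hy : y ≠ 0) : F.v (x / y) = 0 ↔ F.v x = F.v y := by
  rw [← F.v_mul_eq (a := y⁻¹) (inv_ne_zero hy), inv_mul_cancel₀ hy, AddValuation.map_one,
    div_eq_inv_mul]

lemma v_inv (x : F.K) : F.v x⁻¹ = - F.v x := AddValuation.map_inv F.v

lemma v_inv_eq {x y : F.K} (h : F.v x = F.v y) : F.v x⁻¹ = F.v y⁻¹ := by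
  rw [F.v_inv, F.v_inv, h]

lemma v_natCast_nonneg (n : ℕ) : 0 ≤ F.v (n : F.K) := by
  induction n with
  | zero => rw [Nat.cast_zero, AddValuation.map_zero]; exact le_top
  | succ n ih =>
    rw [Nat.cast_succ]
    exact AddValuation.map_le_add F.v ih (by rw [AddValuation.map_one])

lemma res_natCast (n : ℕ) : F.res (n : F.K) = (n : F.k) := by
  induction n with
  | zero => rw [Nat.cast_zero, Nat.cast_zero, F.res_zero]
  | succ n ih =>
    rw [Nat.cast_succ, Nat.cast_succ, F.res_add _ _ (F.v_natCast_nonneg n)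
      (by rw [AddValuation.map_one]), ih, F.res_one]

lemma v_natCast [CharZero F.k] {n : ℕ} (hn : n ≠ 0) : F.v (n : F.K) = 0 := by
  refine le_antisymm ?_ (F.v_natCast_nonneg n)
  by_contra h
  rw [not_le] at h
  have := (F.res_zero_iff _ (F.v_natCast_nonneg n)).mpr h
  rw [F.res_natCast] at this
  exact hn (Nat.cast_eq_zero.mp this)

lemma v_eq_zero_of_res {x : F.K} (h0 : 0 ≤ F.v x) (h : F.res x ≠ 0) : F.v x = 0 := by
  refine le_antisymm ?_ h0
  by_contra h1
  rw [not_le] at h1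
  exact h ((F.res_zero_iff _ h0).mpr h1)

lemma res_ne_zero {x : F.K} (h : F.v x = 0) : F.res x ≠ 0 := by
  intro h1
  have := (F.res_zero_iff x h.ge).mp h1
  exact absurd h this.ne'

lemma res_sum {ι : Type*} (s : Finset ι) (f : ι → F.K) (h : ∀ i ∈ s, 0 ≤ F.v (f i)) :
    F.res (∑ i ∈ s, f i) = ∑ i ∈ s, F.res (f i) := by
  classical
  induction s using Finset.induction_on with
  | empty => rw [Finset.sum_empty, Finset.sum_empty, F.res_zero]
  | insert a s ha ih =>
    rw [Finset.sum_insert ha, Finset.sum_insert ha, F.res_add, ih]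
    · exact fun i hi => h i (Finset.mem_insert_of_mem hi)
    · exact h a (Finset.mem_insert_self a s)
    · exact AddValuation.map_le_sum F.v fun i hi => h i (Finset.mem_insert_of_mem hi)

lemma res_eq_iff {x y : F.K} (hx : 0 ≤ F.v x) (hy : 0 ≤ F.v y) :
    F.res x = F.res y ↔ 0 < F.v (x - y) := by
  rw [← F.res_zero_iff (x - y) (AddValuation.map_le_sub F.v hx hy), F.res_sub _ _ hx hy,
    sub_eq_zero]

lemma res_inv {x : F.K} (hx : F.v x = 0) : F.res x⁻¹ = (F.res x)⁻¹ := by
  have hx0 : x ≠ 0 := by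
    rintro rfl
    rw [AddValuation.map_zero] at hx
    exact WithTop.top_ne_zero hx
  have h1 : F.v x⁻¹ = 0 := by rw [F.v_inv, hx]; simp
  have h2 := F.res_mul x x⁻¹ hx.ge h1.ge
  rw [mul_inv_cancel₀ hx0, F.res_one] at h2
  exact eq_inv_of_mul_eq_one_right h2.symm

/-! ### Equal leading terms -/

/-- `x` and `y` have the same leading term. -/
def sim (x y : F.K) : Prop := x = y ∨ F.v y < F.v (x - y)

variable {F}

lemma sim_refl (x : F.K) : F.sim x x := Or.inl rfl

lemma sim_iff {x y : F.K} (hy : y ≠ 0) : F.sim x y ↔ F.v y < F.v (x - y) := by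
  constructor
  · rintro (rfl | h)
    · rw [sub_self, AddValuation.map_zero]; exact F.v_lt_top hy
    · exact h
  · exact Or.inr

lemma sim_zero_right {x : F.K} : F.sim x 0 ↔ x = 0 := by
  constructor
  · rintro (h | h)
    · exact h
    · rw [AddValuation.map_zero] at h; exact absurd h not_top_lt
  · rintro rfl; exact sim_refl 0

lemma sim_val {x y : F.K} (h : F.sim x y) : F.v x = F.v y := by
  rcases h with rfl | h
  · rfl
  · exact AddValuation.map_eq_of_lt_sub F.v h

lemma sim_symm {x y : F.K} (h : F.sim x y) : F.sim y x := by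
  have h1 := sim_val h
  rcases h with rfl | h
  · exact sim_refl _
  · right
    rw [h1, AddValuation.map_sub_swap]
    exact h

lemma sim_zero_left {y : F.K} : F.sim 0 y ↔ y = 0 := by
  constructor
  · intro h; exact sim_zero_right.mp (sim_symm h)
  · rintro rfl; exact sim_refl 0

lemma sim_ne_zero {x y : F.K} (h : F.sim x y) (hy : y ≠ 0) : x ≠ 0 := by
  rintro rfl
  exact hy (sim_zero_left.mp h)

lemma sim_trans {x y z : F.K} (h1 : F.sim x y) (h2 : F.sim y z) : F.sim x z := by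
  have h3 := sim_val h2
  rcases h1 with rfl | h1
  · exact h2
  rcases h2 with rfl | h2
  · exact Or.inr h1
  right
  have e : x - z = (x - y) + (y - z) := by ring
  rw [e]
  exact AddValuation.map_lt_add F.v (by rw [← h3]; exact h1) h2

lemma sim_mul {x y x' y' : F.K} (h1 : F.sim x y) (h2 : F.sim x' y') :
    F.sim (x * x') (y * y') := by
  by_cases hy : y = 0
  · subst hy
    rw [sim_zero_right] at h1
    rw [h1, zero_mul, zero_mul]; exact sim_refl _
  by_cases hy' : y' = 0
  · subst hy'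
    rw [sim_zero_right] at h2
    rw [h2, mul_zero, mul_zero]; exact sim_refl _
  rw [sim_iff (mul_ne_zero hy hy')]
  have hx : x ≠ 0 := sim_ne_zero h1 hy
  have e : x * x' - y * y' = x * (x' - y') + y' * (x - y) := by ring
  rw [e]
  refine AddValuation.map_lt_add F.v ?_ ?_
  · rw [AddValuation.map_mul, ← sim_val h1, ← AddValuation.map_mul, F.v_mul_lt hx]
    exact (sim_iff hy').mp h2
  · rw [mul_comm y y', F.v_mul_lt hy']
    exact (sim_iff hy).mp h1

lemma sim_mul_left {a x y : F.K} (ha : a ≠ 0) : F.sim (a * x) (a * y) ↔ F.sim x y := by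
  constructor
  · intro h
    have := sim_mul (sim_refl (F := F) a⁻¹) h
    rwa [inv_mul_cancel_left₀ ha, inv_mul_cancel_left₀ ha] at this
  · exact sim_mul (sim_refl a)

lemma sim_inv {x y : F.K} (h : F.sim x y) : F.sim x⁻¹ y⁻¹ := by
  by_cases hy : y = 0
  · subst hy
    rw [sim_zero_right] at h
    rw [h]; exact sim_refl _
  have hx : x ≠ 0 := sim_ne_zero h hy
  have := sim_mul (sim_refl (F := F) (x⁻¹ * y⁻¹)) (sim_symm h)
  have e1 : x⁻¹ * y⁻¹ * y = x⁻¹ := by field_simp
  have e2 : x⁻¹ * y⁻¹ * x = y⁻¹ := by field_simp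
  rwa [e1, e2] at this

lemma sim_div {x y x' y' : F.K} (h1 : F.sim x y) (h2 : F.sim x' y') :
    F.sim (x / x') (y / y') := by
  rw [div_eq_mul_inv, div_eq_mul_inv]
  exact sim_mul h1 (sim_inv h2)

lemma sim_pow {x y : F.K} (h : F.sim x y) (n : ℕ) : F.sim (x ^ n) (y ^ n) := by
  induction n with
  | zero => rw [pow_zero, pow_zero]; exact sim_refl _
  | succ n ih => rw [pow_succ, pow_succ]; exact sim_mul ih h

lemma sim_neg {x y : F.K} (h : F.sim x y) : F.sim (-x) (-y) := by
  have := sim_mul (sim_refl (F := F) (-1)) h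
  simpa using this

lemma sim_of_res {x y : F.K} (hx : 0 ≤ F.v x) (hy : F.v y = 0) (h : F.res x = F.res y) :
    F.sim x y := by
  right
  rw [hy, ← F.res_eq_iff hx hy.ge]
  exact h

lemma res_of_sim {x y : F.K} (hy : 0 ≤ F.v y) (h : F.sim x y) : F.res x = F.res y := by
  have hx : 0 ≤ F.v x := by rw [sim_val h]; exact hy
  rcases h with rfl | h
  · rfl
  · rw [F.res_eq_iff hx hy]
    exact lt_of_le_of_lt hy h

lemma sim_one_iff {x : F.K} : F.sim x 1 ↔ 0 ≤ F.v x ∧ F.res x = 1 := by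
  constructor
  · intro h
    have h0 : 0 ≤ F.v (1 : F.K) := by rw [AddValuation.map_one]
    refine ⟨by rw [sim_val h]; exact h0, ?_⟩
    rw [res_of_sim h0 h, F.res_one]
  · rintro ⟨h1, h2⟩
    exact sim_of_res h1 (AddValuation.map_one _) (by rw [h2, F.res_one])

lemma sim_iff_div {x y : F.K} (hy : y ≠ 0) : F.sim x y ↔ F.sim (x / y) 1 := by
  rw [← sim_mul_left (F := F) (a := y⁻¹) (inv_ne_zero hy), inv_mul_cancel₀ hy, div_eq_inv_mul]

end VF

end Pool.Agent.Lib.MP_65f174_lc.AKE
end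

section

set_option autoImplicit false

/-!
# Hensel's lemma for polynomials which are not monic, and the collision lemma
-/

namespace Pool.Agent.Lib.MP_65f174_lc.AKE

universe u

open Polynomial

namespace VF

variable {F : VF.{u}}

/-- all coefficients are integral -/
def IntC (p : F.K[X]) : Prop := ∀ i, 0 ≤ F.v (p.coeff i)

lemma v_pow_nonneg {x : F.K} (hx : 0 ≤ F.v x) (n : ℕ) : 0 ≤ F.v (x ^ n) := by
  rw [AddValuation.map_pow]; exact nsmul_nonneg hx n

lemma v_mul_nonneg {x y : F.K} (hx : 0 ≤ F.v x) (hy : 0 ≤ F.v y) : 0 ≤ F.v (x * y) := by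
  rw [AddValuation.map_mul]; exact add_nonneg hx hy

lemma IntC.eval {p : F.K[X]} (hp : IntC p) {x : F.K} (hx : 0 ≤ F.v x) : 0 ≤ F.v (p.eval x) := by
  rw [Polynomial.eval_eq_sum_range]
  exact AddValuation.map_le_sum F.v fun i _ => v_mul_nonneg (hp i) (v_pow_nonneg hx i)

lemma IntC.hasse {p : F.K[X]} (hp : IntC p) (m : ℕ) : IntC (hasseDeriv m p) := by
  intro i
  rw [hasseDeriv_coeff]
  exact v_mul_nonneg (F.v_natCast_nonneg _) (hp _)

lemma IntC.taylor {p : F.K[X]} (hp : IntC p) {x : F.K} (hx : 0 ≤ F.v x) :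
    IntC (taylor x p) := by
  intro i
  rw [taylor_coeff]
  exact (hp.hasse i).eval hx

lemma IntC.deriv {p : F.K[X]} (hp : IntC p) : IntC (derivative p) := by
  intro i
  rw [coeff_derivative]
  refine v_mul_nonneg (hp _) ?_
  have : ((i : F.K) + 1) = ((i + 1 : ℕ) : F.K) := by push_cast; rfl
  rw [this]
  exact F.v_natCast_nonneg _

/-- Hensel's lemma around `0` for polynomials which need not be monic. -/
lemma hens_zero (hF : F.Hens) (q : F.K[X]) (hq : IntC q) (h0 : 0 < F.v (q.coeff 0))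
    (h1 : F.v (q.coeff 1) = 0) : ∃ y, q.eval y = 0 ∧ 0 < F.v y := by
  by_cases ha0 : q.coeff 0 = 0
  · refine ⟨0, ?_, ?_⟩
    · rw [← coeff_zero_eq_eval_zero, ha0]
    · rw [AddValuation.map_zero]; exact WithTop.coe_lt_top 0
  obtain ⟨a0, ha0d⟩ : ∃ a, a = q.coeff 0 := ⟨_, rfl⟩
  obtain ⟨a1, ha1d⟩ : ∃ a, a = q.coeff 1 := ⟨_, rfl⟩
  rw [← ha0d] at h0 ha0
  rw [← ha1d] at h1
  have ha1 : a1 ≠ 0 := by
    rintro rfl
    rw [AddValuation.map_zero] at h1
    exact WithTop.top_ne_zero h1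
  obtain ⟨n, hn⟩ : ∃ n, q.natDegree = n + 1 := by
    have : 1 ≤ q.natDegree := le_natDegree_of_ne_zero (by rw [← ha1d]; exact ha1)
    exact ⟨q.natDegree - 1, by omega⟩
  let β : ℕ → F.K := fun j => (-1) ^ (j + 1) * q.coeff (j + 1) * a0 ^ j / a1 ^ (j + 1)
  have hβ0 : β 0 = -1 := by
    simp only [β, zero_add, pow_one, pow_zero, mul_one]
    rw [← ha1d]
    field_simp
  have hv1 : F.v (-1 : F.K) = 0 := by rw [AddValuation.map_neg, AddValuation.map_one]
  have hva1 : ∀ j, F.v (a1 ^ j)⁻¹ = 0 := by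
    intro j
    rw [F.v_inv, AddValuation.map_pow, h1, nsmul_zero]
    simp
  have hβv : ∀ j, 0 ≤ F.v (β j) := by
    intro j
    simp only [β]
    rw [div_eq_mul_inv]
    refine v_mul_nonneg (v_mul_nonneg (v_mul_nonneg (v_pow_nonneg hv1.ge _) (hq _))
      (v_pow_nonneg h0.le _)) (hva1 _).ge
  have hβv' : ∀ j, 0 < F.v (β (j + 1)) := by
    intro j
    simp only [β]
    have e : (-1 : F.K) ^ (j + 1 + 1) * q.coeff (j + 1 + 1) * a0 ^ (j + 1) / a1 ^ (j + 1 + 1)
        = a0 * ((-1) ^ (j + 1 + 1) * q.coeff (j + 1 + 1) * a0 ^ j * (a1 ^ (j + 1 + 1))⁻¹) := by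
      rw [div_eq_mul_inv, pow_succ a0 j]; ring
    rw [e, AddValuation.map_mul]
    refine add_pos_of_pos_of_nonneg h0 ?_
    exact v_mul_nonneg (v_mul_nonneg (v_mul_nonneg (v_pow_nonneg hv1.ge _) (hq _))
      (v_pow_nonneg h0.le _)) (hva1 _).ge
  -- the reversed polynomial
  let r : F.K[X] := ∑ j ∈ Finset.range (n + 1), C (β j) * X ^ (n - j)
  let g : F.K[X] := X ^ (n + 1) + r
  have hr : r.degree < (n + 1 : ℕ) := by
    refine lt_of_le_of_lt (degree_sum_le _ _) ?_
    rw [Finset.sup_lt_iff (by exact WithBot.bot_lt_coe _)]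
    intro j hj
    refine lt_of_le_of_lt (degree_C_mul_X_pow_le _ _) ?_
    exact_mod_cast (by omega : n - j < n + 1)
  have hg : g.Monic := monic_X_pow_add hr
  have hgc : ∀ i, 0 ≤ F.v (g.coeff i) := by
    intro i
    simp only [g, r]
    rw [coeff_add, finsetSum_coeff, coeff_X_pow]
    refine AddValuation.map_le_add F.v ?_ (AddValuation.map_le_sum F.v fun j _ => ?_)
    · split_ifs
      · rw [AddValuation.map_one]
      · rw [AddValuation.map_zero]; exact le_top
    · rw [coeff_C_mul, coeff_X_pow]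
      split_ifs
      · rw [mul_one]; exact hβv j
      · rw [mul_zero, AddValuation.map_zero]; exact le_top
  have hge : ∀ z, g.eval z = z ^ (n + 1) + ∑ j ∈ Finset.range (n + 1), β j * z ^ (n - j) := by
    intro z
    simp only [g, r]
    rw [eval_add, eval_pow, eval_X, eval_finsetSum]
    simp
  have hg1 : 0 < F.v (g.eval 1) := by
    rw [hge]
    have : (1 : F.K) ^ (n + 1) + ∑ j ∈ Finset.range (n + 1), β j * 1 ^ (n - j)
        = ∑ j ∈ Finset.range n, β (j + 1) := by
      rw [Finset.sum_range_succ']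
      simp [hβ0]
    rw [this]
    refine AddValuation.map_lt_sum F.v WithTop.zero_ne_top fun j _ => hβv' j
  have hg2 : F.v (g.derivative.eval 1) = 0 := by
    have hd : g.derivative.eval 1 = 1 + ∑ j ∈ Finset.range n, β (j + 1) * ((n - (j + 1) : ℕ) : F.K) := by
      simp only [g, r]
      rw [derivative_add, eval_add, derivative_sum, eval_finsetSum, Finset.sum_range_succ']
      simp [hβ0, derivative_pow]
      ring
    rw [hd]
    have hs : 0 < F.v (∑ j ∈ Finset.range n, β (j + 1) * ((n - (j + 1) : ℕ) : F.K)) := by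
      refine AddValuation.map_lt_sum F.v WithTop.zero_ne_top fun j _ => ?_
      rw [AddValuation.map_mul]
      exact add_pos_of_pos_of_nonneg (hβv' j) (F.v_natCast_nonneg _)
    rw [AddValuation.map_add_eq_of_lt_left F.v (by rw [AddValuation.map_one]; exact hs),
      AddValuation.map_one]
  obtain ⟨z, hz1, hz2⟩ := hF g hg hgc 1 (by rw [AddValuation.map_one]) hg1 hg2
  have hzs : F.sim z 1 := Or.inr (by rw [AddValuation.map_one]; exact hz2)
  have hz0 : z ≠ 0 := sim_ne_zero hzs one_ne_zero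
  have hzv : F.v z = 0 := by rw [sim_val hzs, AddValuation.map_one]
  refine ⟨-(a0 / a1) * z⁻¹, ?_, ?_⟩
  · rw [eval_eq_sum_range, hn, Finset.sum_range_succ']
    have e : ∀ j ∈ Finset.range (n + 1), q.coeff (j + 1) * (-(a0 / a1) * z⁻¹) ^ (j + 1)
        = a0 / z ^ (n + 1) * (β j * z ^ (n - j)) := by
      intro j hj
      have hj' : j ≤ n := Nat.lt_succ_iff.mp (Finset.mem_range.mp hj)
      have e1 : z ^ (n + 1) = z ^ (n - j) * z ^ (j + 1) := by
        rw [← pow_add]; congr 1; omega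
      simp only [β]
      rw [e1]
      have e2 : (-(a0 / a1) * z⁻¹) ^ (j + 1)
          = (-1) ^ (j + 1) * a0 ^ (j + 1) / a1 ^ (j + 1) / z ^ (j + 1) := by
        rw [neg_mul, neg_pow, mul_pow, div_pow, inv_pow]
        ring
      rw [e2]
      field_simp
      ring
    rw [Finset.sum_congr rfl e, ← Finset.mul_sum, pow_zero, mul_one, ← ha0d]
    rw [hge] at hz1
    have hs : ∑ j ∈ Finset.range (n + 1), β j * z ^ (n - j) = - z ^ (n + 1) := by
      linear_combination hz1
    rw [hs]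
    field_simp
    ring
  · rw [AddValuation.map_mul, AddValuation.map_neg, div_eq_mul_inv, AddValuation.map_mul,
      F.v_inv, F.v_inv, h1, hzv]
    simpa using h0

/-- Hensel's lemma for polynomials which need not be monic. -/
lemma hens_gen (hF : F.Hens) (p : F.K[X]) (hp : IntC p) (x : F.K) (hx : 0 ≤ F.v x)
    (h0 : 0 < F.v (p.eval x)) (h1 : F.v (p.derivative.eval x) = 0) :
    ∃ y, p.eval y = 0 ∧ 0 < F.v (y - x) := by
  obtain ⟨y, hy1, hy2⟩ := hens_zero hF (taylor x p) (hp.taylor hx)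
    (by rw [taylor_coeff_zero]; exact h0) (by rw [taylor_coeff_one]; exact h1)
  refine ⟨y + x, ?_, ?_⟩
  · rw [taylor_eval] at hy1; exact hy1
  · rw [add_sub_cancel_right]; exact hy2

/-- Uniqueness in Hensel's lemma. -/
lemma hens_unique (p : F.K[X]) (hp : IntC p) {y y' : F.K} (hy : 0 ≤ F.v y)
    (h1 : p.eval y = 0) (h2 : p.eval y' = 0) (h3 : 0 < F.v (y' - y))
    (h4 : F.v (p.derivative.eval y) = 0) : y = y' := by
  obtain ⟨q, hq⟩ : ∃ q, q = taylor y p := ⟨_, rfl⟩
  have hqi : IntC q := by rw [hq]; exact hp.taylor hy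
  obtain ⟨d, hd⟩ : ∃ d, d = y' - y := ⟨_, rfl⟩
  rw [← hd] at h3
  have e0 : q.coeff 0 = 0 := by rw [hq, taylor_coeff_zero, h1]
  have e1 : F.v (q.coeff 1) = 0 := by rw [hq, taylor_coeff_one, h4]
  have e2 : q.eval d = 0 := by
    rw [hq, taylor_eval, hd, sub_add_cancel, h2]
  -- write `q = X * (q₁ + X * r)`
  have e3 : q.eval d = q.coeff 0 + d * (q.coeff 1 + d * (divX (divX q)).eval d) := by
    have k1 := divX_mul_X_add q
    have k2 := divX_mul_X_add (divX q)
    have k3 : (divX q).coeff 0 = q.coeff 1 := by rw [coeff_divX]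
    conv_lhs => rw [← k1, ← k2, k3]
    simp only [eval_add, eval_mul, eval_X, eval_C]
    ring
  have hr : 0 ≤ F.v ((divX (divX q)).eval d) := by
    refine IntC.eval (fun i => ?_) h3.le
    rw [coeff_divX, coeff_divX]
    exact hqi _
  rw [e2, e0, zero_add] at e3
  have e4 : F.v (q.coeff 1 + d * (divX (divX q)).eval d) = 0 := by
    have : 0 < F.v (d * (divX (divX q)).eval d) := by
      rw [AddValuation.map_mul]; exact add_pos_of_pos_of_nonneg h3 hr
    rw [AddValuation.map_add_eq_of_lt_left F.v (by rw [e1]; exact this), e1]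
  have e5 : q.coeff 1 + d * (divX (divX q)).eval d ≠ 0 := by
    intro h
    rw [h, AddValuation.map_zero] at e4
    exact WithTop.top_ne_zero e4
  have e6 : d = 0 := by
    rcases mul_eq_zero.mp e3.symm with h | h
    · exact h
    · exact absurd h e5
  rw [hd, sub_eq_zero] at e6
  exact e6.symm

/-! ### Collisions -/

/-- The polynomial `p (c + d X) / l`. -/
noncomputable def Rp (p : F.K[X]) (c d l : F.K) : F.K[X] :=
  C l⁻¹ * (taylor c p).comp (C d * X)

lemma Rp_coeff (p : F.K[X]) (c d l : F.K) (j : ℕ) :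
    (Rp p c d l).coeff j = (taylor c p).coeff j * d ^ j / l := by
  unfold Rp
  rw [coeff_C_mul, comp_C_mul_X_coeff, div_eq_inv_mul]

lemma Rp_eval (p : F.K[X]) (c d l y : F.K) :
    (Rp p c d l).eval y = p.eval (c + d * y) / l := by
  unfold Rp
  rw [eval_mul, eval_C, eval_comp, eval_mul, eval_C, eval_X, taylor_eval, div_eq_inv_mul,
    add_comm]

lemma taylor_Rp (p : F.K[X]) (c d l y : F.K) :
    taylor y (Rp p c d l) = Rp p (c + d * y) d l := by
  unfold Rp
  rw [taylor_mul, taylor_C, taylor_apply, taylor_apply, taylor_apply, comp_assoc, comp_assoc,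
    comp_assoc]
  congr 2
  simp only [add_comp, X_comp, C_comp, mul_comp, map_add, map_mul]
  ring

/-- no cancellation in the Taylor expansion of `p` at `c`, evaluated at `a` -/
def NC (p : F.K[X]) (c a : F.K) : Prop :=
  ∀ j, F.v (p.eval a) ≤ F.v ((taylor c p).coeff j * (a - c) ^ j)

/-- **Collision lemma**, refined form. -/
lemma collision_aux (hF : F.Hens) [CharZero F.k] (p : F.K[X]) (c d l : F.K) (hd : d ≠ 0)
    (hl : l ≠ 0) (hR : IntC (Rp p c d l)) (hR0 : ∃ j, F.v ((Rp p c d l).coeff j) = 0)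
    (h1 : 0 < F.v ((Rp p c d l).eval 1)) :
    ∃ e, e < p.natDegree ∧ (∃ c', (hasseDeriv e p).eval c' = 0 ∧
      F.v d < F.v (c + d - c')) ∧ (e = 0 → F.v ((Rp p c d l).derivative.eval 1) = 0) := by
  classical
  obtain ⟨R, hRd⟩ : ∃ R, R = Rp p c d l := ⟨_, rfl⟩
  rw [← hRd] at hR hR0 h1
  have h10 : 0 ≤ F.v (1 : F.K) := by rw [AddValuation.map_one]
  -- some Hasse derivative is a unit at `1`
  have hex : ∃ i, F.v ((taylor 1 R).coeff i) = 0 := by
    by_contra hcon
    push Not at hcon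
    have hpos : ∀ i, 0 < F.v ((taylor 1 R).coeff i) := fun i =>
      lt_of_le_of_ne ((hR.taylor h10) i) (Ne.symm (hcon i))
    obtain ⟨j, hj⟩ := hR0
    have e : R = taylor (-1) (taylor 1 R) := by
      rw [taylor_taylor]; simp
    have h2 : 0 < F.v (R.coeff j) := by
      rw [e, taylor_coeff, eval_eq_sum_range]
      refine AddValuation.map_lt_sum F.v WithTop.zero_ne_top fun i _ => ?_
      rw [AddValuation.map_mul]
      refine add_pos_of_pos_of_nonneg ?_ ?_
      · rw [hasseDeriv_coeff, AddValuation.map_mul, add_comm]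
        exact add_pos_of_pos_of_nonneg (hpos _) (F.v_natCast_nonneg _)
      · refine v_pow_nonneg ?_ _
        rw [AddValuation.map_neg, AddValuation.map_one]
    rw [hj] at h2
    exact lt_irrefl _ h2
  obtain ⟨i, hi⟩ : ∃ i, i = Nat.find hex := ⟨_, rfl⟩
  have hi1 : F.v ((taylor 1 R).coeff i) = 0 := by rw [hi]; exact Nat.find_spec hex
  have hi2 : ∀ j < i, 0 < F.v ((taylor 1 R).coeff j) := fun j hj => by
    rw [hi] at hj
    exact lt_of_le_of_ne ((hR.taylor h10) j) (Ne.symm (Nat.find_min hex hj))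
  have hi0 : i ≠ 0 := by
    rintro rfl
    rw [taylor_coeff_zero] at hi1
    rw [hi1] at h1
    exact lt_irrefl _ h1
  obtain ⟨e, rfl⟩ : ∃ e, i = e + 1 := ⟨i - 1, by omega⟩
  -- degree
  have hdeg : e + 1 ≤ p.natDegree := by
    have h2 : (taylor 1 R).coeff (e + 1) ≠ 0 := by
      intro h
      rw [h, AddValuation.map_zero] at hi1
      exact WithTop.top_ne_zero hi1
    have h3 := le_natDegree_of_ne_zero h2
    rw [natDegree_taylor] at h3
    refine h3.trans ?_
    rw [hRd]
    unfold Rp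
    refine (natDegree_C_mul_le _ _).trans ?_
    refine natDegree_comp_le.trans ?_
    rw [natDegree_taylor]
    calc p.natDegree * (C d * X).natDegree ≤ p.natDegree * 1 :=
          Nat.mul_le_mul_left _ ((natDegree_C_mul_le _ _).trans natDegree_X_le)
      _ = _ := mul_one _
  -- root of the Hasse derivative of `R`
  obtain ⟨y, hy1, hy2⟩ := hens_gen hF (hasseDeriv e R) (hR.hasse e) 1 h10
    (by rw [← taylor_coeff]; exact hi2 e (Nat.lt_succ_self e))
    (by
      have e1 : derivative (hasseDeriv e R) = (e + 1) • hasseDeriv (e + 1) R := by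
        rw [← hasseDeriv_one]
        have := congrArg (fun f => f R) (hasseDeriv_comp (R := F.K) 1 e)
        simp only [LinearMap.comp_apply, LinearMap.smul_apply] at this
        rw [this, add_comm 1 e, Nat.choose_one_right]
      rw [e1, eval_smul, nsmul_eq_mul, ← taylor_coeff, AddValuation.map_mul, hi1, add_zero]
      exact F.v_natCast (Nat.succ_ne_zero e))
  have hy3 : (hasseDeriv e p).eval (c + d * y) = 0 := by
    rw [← taylor_coeff]
    rw [← taylor_coeff, hRd, taylor_Rp, Rp_coeff] at hy1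
    rcases div_eq_zero_iff.mp hy1 with h | h
    · rcases mul_eq_zero.mp h with h | h
      · exact h
      · exact absurd h (pow_ne_zero _ hd)
    · exact absurd h hl
  refine ⟨e, by omega, ⟨c + d * y, hy3, ?_⟩, ?_⟩
  · have e1 : c + d - (c + d * y) = d * (1 - y) := by ring
    rw [e1]
    have h2 : F.v d = F.v (d * 1) := by rw [mul_one]
    rw [h2, F.v_mul_lt hd, AddValuation.map_one, AddValuation.map_sub_swap]
    exact hy2
  · rintro rfl
    rw [← hRd, ← taylor_coeff_one]
    exact hi1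

/-- **Collision lemma.** -/
lemma collision (hF : F.Hens) [CharZero F.k] (p : F.K[X]) (c a : F.K)
    (hac : a ≠ c) (h : ¬ NC p c a) :
    ∃ l : F.K, l ≠ 0 ∧ IntC (Rp p c (a - c) l) ∧ (∃ j, F.v ((Rp p c (a - c) l).coeff j) = 0) ∧
      (∃ j, l = (taylor c p).coeff j * (a - c) ^ j) ∧
      0 < F.v ((Rp p c (a - c) l).eval 1) ∧
      ∃ e, e < p.natDegree ∧ (∃ c', (hasseDeriv e p).eval c' = 0 ∧ F.v (a - c) < F.v (a - c')) ∧
        (e = 0 → F.v ((Rp p c (a - c) l).derivative.eval 1) = 0) := by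
  classical
  have hd : a - c ≠ 0 := sub_ne_zero.mpr hac
  obtain ⟨j0, hj0, hmin⟩ := Finset.exists_min_image (Finset.range (p.natDegree + 1))
    (fun j => F.v ((taylor c p).coeff j * (a - c) ^ j)) ⟨0, by simp⟩
  obtain ⟨l, hld⟩ : ∃ l, l = (taylor c p).coeff j0 * (a - c) ^ j0 := ⟨_, rfl⟩
  have hall : ∀ j, F.v l ≤ F.v ((taylor c p).coeff j * (a - c) ^ j) := by
    intro j
    by_cases hj : j ∈ Finset.range (p.natDegree + 1)
    · rw [hld]; exact hmin j hj
    · have : (taylor c p).coeff j = 0 := by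
        refine coeff_eq_zero_of_natDegree_lt ?_
        rw [natDegree_taylor]
        rw [Finset.mem_range] at hj
        omega
      rw [this, zero_mul, AddValuation.map_zero]
      exact le_top
  unfold NC at h
  push Not at h
  obtain ⟨j, hj⟩ := h
  have hlt : F.v l < F.v (p.eval a) := lt_of_le_of_lt (hall j) hj
  have hl : l ≠ 0 := by
    rintro rfl
    rw [AddValuation.map_zero] at hlt
    exact not_top_lt hlt
  have hR : IntC (Rp p c (a - c) l) := by
    intro i
    rw [Rp_coeff, F.v_div_nonneg hl]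
    exact hall i
  have hR0 : ∃ j, F.v ((Rp p c (a - c) l).coeff j) = 0 := by
    refine ⟨j0, ?_⟩
    rw [Rp_coeff, F.v_div_eq hl, hld]
  have h1 : 0 < F.v ((Rp p c (a - c) l).eval 1) := by
    rw [Rp_eval, F.v_div_pos hl]
    have : c + (a - c) * 1 = a := by ring
    rw [this]
    exact hlt
  obtain ⟨e, he1, ⟨c', hc1, hc2⟩, he3⟩ := collision_aux hF p c (a - c) l hd hl hR hR0 h1
  refine ⟨l, hl, hR, hR0, ⟨j0, hld⟩, h1, e, he1, ⟨c', hc1, ?_⟩, he3⟩
  have : c + (a - c) - c' = a - c' := by ring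
  rwa [this] at hc2

end VF

end Pool.Agent.Lib.MP_65f174_lc.AKE
end
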