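import Pool.Agent.Lib.MP_65f174_lc.AKE.Lift
import Pool.Agent.Lib.MP_65f174_lc.AKE.RV

section

set_option autoImplicit false

/-!
# The embedding lemma
-/

namespace Pool.Agent.Lib.MP_65f174_lc.AKE

universe u

open Polynomial

/-- Approximation by elements with prescribed leading terms of countably many differences. -/
def SatB (F : VF.{u}) : Prop :=
  ∀ S : Set (F.K × F.K), S.Countable →
    (∀ s : Finset (F.K × F.K), (s : Set (F.K × F.K)) ⊆ S →
      ∃ b, ∀ p ∈ s, F.v p.2 < F.v (b - p.1 - p.2)) →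
    ∃ b, ∀ p ∈ S, F.v p.2 < F.v (b - p.1 - p.2)

/-- `A` is relatively algebraically closed in the field of `E`. -/
def RelClosed {E : VF.{u}} (A : Subfield E.K) : Prop :=
  ∀ P : E.K[X], P ≠ 0 → (∀ i, P.coeff i ∈ A) → ∀ x, P.eval x = 0 → x ∈ A

section

variable {E F : VF.{u}} {A : Subfield E.K} {D : LiftData E F A}

lemma charZero_field (E : VF.{u}) [CharZero E.k] : CharZero E.K := by
  constructor
  intro m n hmn
  have h1 : E.res (m : E.K) = E.res (n : E.K) := by rw [hmn]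
  rw [E.res_natCast, E.res_natCast] at h1
  exact_mod_cast h1

/-- the elements of the domain of a graph -/
def dom (G : Subring (E.K × F.K)) : Set E.K := {x | ∃ y, (x, y) ∈ G}

/-- Localisation of a graph. -/
lemma adj_inv {G : Subring (E.K × F.K)} (h : GoodG D G) {x : E.K} {y : F.K}
    (hxy : (x, y) ∈ G) (hx : x ≠ 0) : GoodG D (adjG G (x⁻¹, y⁻¹)) := by
  have hxA : x ∈ A := (h _ hxy).1
  have hys : F.sim y (D.Y x) := (h _ hxy).2
  have hy : y ≠ 0 := VF.sim_ne_zero hys (D.Y_ne_zero hxA hx)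
  have key : ∀ p : G[X], ∃ n : ℕ, eval₂ G.subtype (x⁻¹, y⁻¹) p * (x, y) ^ n ∈ G := by
    intro p
    induction p using Polynomial.induction_on' with
    | add p q hp hq =>
      obtain ⟨n, hn⟩ := hp
      obtain ⟨m, hm⟩ := hq
      refine ⟨n + m, ?_⟩
      rw [eval₂_add]
      have e : (eval₂ G.subtype (x⁻¹, y⁻¹) p + eval₂ G.subtype (x⁻¹, y⁻¹) q) * (x, y) ^ (n + m)
          = eval₂ G.subtype (x⁻¹, y⁻¹) p * (x, y) ^ n * (x, y) ^ m
            + eval₂ G.subtype (x⁻¹, y⁻¹) q * (x, y) ^ m * (x, y) ^ n := by ring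
      rw [e]
      exact G.add_mem (G.mul_mem hn (G.pow_mem hxy m)) (G.mul_mem hm (G.pow_mem hxy n))
    | monomial n a =>
      refine ⟨n, ?_⟩
      rw [eval₂_monomial, mul_assoc, ← mul_pow]
      have e : ((x⁻¹, y⁻¹) * (x, y) : E.K × F.K) = 1 := by
        rw [Prod.mk_mul_mk, inv_mul_cancel₀ hx, inv_mul_cancel₀ hy]; rfl
      rw [e, one_pow, mul_one]
      exact a.2
  rintro _ ⟨p, rfl⟩
  obtain ⟨n, hn⟩ := key p
  obtain ⟨γ, hγ⟩ : ∃ γ, γ = eval₂ G.subtype (x⁻¹, y⁻¹) p := ⟨_, rfl⟩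
  rw [← hγ] at hn
  have e0 : (eval₂RingHom G.subtype (x⁻¹, y⁻¹)) p = γ := by rw [hγ]; rfl
  rw [e0]
  have e1 : γ * (x, y) ^ n = (γ.1 * x ^ n, γ.2 * y ^ n) := rfl
  rw [e1] at hn
  obtain ⟨h1, h2⟩ := h _ hn
  simp only at h1 h2
  have hγA : γ.1 ∈ A := by
    have : γ.1 = γ.1 * x ^ n / x ^ n := by field_simp
    rw [this]
    exact A.div_mem h1 (A.pow_mem hxA n)
  refine ⟨hγA, ?_⟩
  have h3 : F.sim (γ.2 * y ^ n) (D.Y γ.1 * D.Y x ^ n) :=
    VF.sim_trans h2 (VF.sim_trans (D.mul _ hγA _ (A.pow_mem hxA n))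
      (VF.sim_mul (VF.sim_refl _) (LiftData.pow_sim hxA n)))
  have h4 := VF.sim_div h3 (VF.sim_pow hys n)
  have hYx : D.Y x ≠ 0 := D.Y_ne_zero hxA hx
  rwa [mul_div_cancel_right₀ _ (pow_ne_zero n hy),
    mul_div_cancel_right₀ _ (pow_ne_zero n hYx)] at h4

/-- a point without cancellation -/
lemma exists_NC [CharZero E.k] (hE : E.Hens) (S : Set E.K) (h0 : (0 : E.K) ∈ S) (P : E.K[X])
    (hroots : ∀ e < P.natDegree, ∀ c, (hasseDeriv e P).eval c = 0 → c ∈ S)
    (α : E.K) (hα : α ∉ S) : ∃ c ∈ S, VF.NC P c α := by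
  classical
  have hchar := charZero_field E
  let Z : Finset E.K := insert 0 ((Finset.range P.natDegree).biUnion fun e =>
    (hasseDeriv e P).roots.toFinset)
  have hZ : ∀ c ∈ Z, c ∈ S := by
    intro c hc
    rw [Finset.mem_insert, Finset.mem_biUnion] at hc
    rcases hc with rfl | ⟨e, he, hc⟩
    · exact h0
    · rw [Multiset.mem_toFinset, mem_roots'] at hc
      exact hroots e (Finset.mem_range.mp he) c hc.2
  obtain ⟨c, hc, hmax⟩ := Finset.exists_max_image Z (fun c => E.v (α - c)) ⟨0, by simp [Z]⟩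
  refine ⟨c, hZ c hc, ?_⟩
  by_contra hcon
  obtain ⟨l, _, _, _, _, _, e, he1, ⟨c', hc1, hc2⟩, _⟩ := VF.collision hE P c α
    (fun h => hα (by rw [h]; exact hZ c hc)) hcon
  have hne : hasseDeriv e P ≠ 0 := by
    intro h
    have h1 : (hasseDeriv e P).coeff (P.natDegree - e) = (0 : E.K[X]).coeff (P.natDegree - e) := by
      rw [h]
    rw [hasseDeriv_coeff, coeff_zero, Nat.sub_add_cancel he1.le] at h1
    rcases mul_eq_zero.mp h1 with h2 | h2
    · have h3 := Nat.cast_eq_zero.mp h2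
      exact absurd h3 (Nat.choose_pos he1.le).ne'
    · have h3 : P.leadingCoeff = 0 := h2
      rw [leadingCoeff_eq_zero] at h3
      rw [h3, natDegree_zero] at he1
      exact Nat.not_lt_zero _ he1
  have hc'Z : c' ∈ Z := by
    rw [Finset.mem_insert, Finset.mem_biUnion]
    right
    refine ⟨e, Finset.mem_range.mpr he1, ?_⟩
    rw [Multiset.mem_toFinset, mem_roots']
    exact ⟨hne, hc1⟩
  exact absurd hc2 (not_lt.mpr (hmax c' hc'Z))

lemma lift_poly {G : Subring (E.K × F.K)} (P : E.K[X]) (hP : ∀ i, P.coeff i ∈ dom G) :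
    ∃ p : G[X], map1 p = P := by
  have : P ∈ lifts ((RingHom.fst E.K F.K).comp G.subtype) := by
    rw [lifts_iff_coeff_lifts]
    intro i
    obtain ⟨y, hy⟩ := hP i
    exact ⟨⟨_, hy⟩, rfl⟩
  rw [mem_lifts] at this
  exact this

lemma lift_monic {G : Subring (E.K × F.K)} (P : E.K[X]) (hP : ∀ i, P.coeff i ∈ dom G)
    (hm : P.Monic) : ∃ p : G[X], map1 p = P ∧ p.Monic ∧ p.natDegree = P.natDegree := by
  have : P ∈ lifts ((RingHom.fst E.K F.K).comp G.subtype) := by
    rw [lifts_iff_coeff_lifts]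
    intro i
    obtain ⟨y, hy⟩ := hP i
    exact ⟨⟨_, hy⟩, rfl⟩
  obtain ⟨p, h1, h2, h3⟩ := lifts_and_natDegree_eq_and_monic this hm
  exact ⟨p, h1, h3, h2⟩

/-- a maximal graph has a field as its domain -/
lemma dom_div {G : Subring (E.K × F.K)} (h : GoodG D G)
    (hmax : ∀ G', G ≤ G' → GoodG D G' → G' ≤ G) {x : E.K} {y : F.K} (hxy : (x, y) ∈ G) :
    (x⁻¹, y⁻¹) ∈ G := by
  by_cases hx : x = 0
  · subst hx
    rw [h.zero hxy, inv_zero, inv_zero]
    exact G.zero_mem
  · exact hmax _ (le_adjG _ _) (adj_inv h hxy hx) (mem_adjG _ _)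

/-- The transcendental step, and the criterion for extending a graph. -/
lemma good_adj {G : Subring (E.K × F.K)} (h : GoodG D G) {α : E.K} {β : F.K} (hα : α ∈ A)
    (hev : ∀ p : G[X], F.sim ((map2 p).eval β) (D.Y ((map1 p).eval α))) :
    GoodG D (adjG G (α, β)) := by
  rintro _ ⟨p, rfl⟩
  have e0 : (eval₂RingHom G.subtype (α, β)) p = ((map1 p).eval α, (map2 p).eval β) := by
    rw [coe_eval₂RingHom, eval_pair]
  rw [e0]
  refine ⟨?_, hev p⟩
  change (map1 p).eval α ∈ A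
  rw [eval_eq_sum_range]
  refine A.sum_mem fun i _ => A.mul_mem ?_ (A.pow_mem hα i)
  rw [map1_coeff]
  exact (h _ (p.coeff i).2).1

/-! ### Domains -/

lemma dom_natCast (G : Subring (E.K × F.K)) (n : ℕ) : (n : E.K) ∈ dom G :=
  ⟨(n : F.K), natCast_mem G n⟩

lemma dom_mul {G : Subring (E.K × F.K)} {x y : E.K} (hx : x ∈ dom G) (hy : y ∈ dom G) :
    x * y ∈ dom G := by
  obtain ⟨a, ha⟩ := hx
  obtain ⟨b, hb⟩ := hy
  exact ⟨a * b, G.mul_mem ha hb⟩

lemma dom_sub {G : Subring (E.K × F.K)} {x y : E.K} (hx : x ∈ dom G) (hy : y ∈ dom G) :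
    x - y ∈ dom G := by
  obtain ⟨a, ha⟩ := hx
  obtain ⟨b, hb⟩ := hy
  exact ⟨a - b, G.sub_mem ha hb⟩

lemma dom_hasse {G : Subring (E.K × F.K)} {P : E.K[X]} (hP : ∀ i, P.coeff i ∈ dom G) (e : ℕ) :
    ∀ i, (hasseDeriv e P).coeff i ∈ dom G := by
  intro i
  rw [hasseDeriv_coeff]
  exact dom_mul (dom_natCast G _) (hP _)

lemma dom_sub_A {G : Subring (E.K × F.K)} (h : GoodG D G) {x : E.K} (hx : x ∈ dom G) :
    x ∈ A := by
  obtain ⟨a, ha⟩ := hx
  exact (h _ ha).1

lemma hasse_ne_zero {K : Type*} [Field K] [CharZero K] {P : K[X]} {e : ℕ}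
    (he : e < P.natDegree) : hasseDeriv e P ≠ 0 := by
  intro h
  have h1 : (hasseDeriv e P).coeff (P.natDegree - e) = (0 : K[X]).coeff (P.natDegree - e) := by
    rw [h]
  rw [hasseDeriv_coeff, coeff_zero, Nat.sub_add_cancel he.le] at h1
  rcases mul_eq_zero.mp h1 with h2 | h2
  · have h3 := Nat.cast_eq_zero.mp h2
    exact absurd h3 (Nat.choose_pos he.le).ne'
  · have h3 : P.leadingCoeff = 0 := h2
    rw [leadingCoeff_eq_zero] at h3
    rw [h3, natDegree_zero] at he
    exact Nat.not_lt_zero _ he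

/-- The value of `β - b'` for all `(c', b')` in the graph determines all values of polynomials
of small degree. -/
lemma eval_of_min [CharZero E.k] (hE : E.Hens) {G : Subring (E.K × F.K)} (h : GoodG D G)
    (hA : RelClosed A) (n : ℕ∞)
    (hmin : ∀ x ∈ A, ∀ P : E.K[X], P ≠ 0 → (∀ i, P.coeff i ∈ dom G) → (P.natDegree : ℕ∞) < n →
      P.eval x = 0 → x ∈ dom G)
    {α : E.K} {β : F.K} (hα : α ∈ A) (hα' : α ∉ dom G)
    (hβ : ∀ p ∈ G, F.sim (β - p.2) (D.Y (α - p.1)))
    (p : G[X]) (hp : ((map1 p).natDegree : ℕ∞) < n) :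
    F.sim ((map2 p).eval β) (D.Y ((map1 p).eval α)) := by
  have hchar := charZero_field E
  have hc : ∀ i, (map1 p).coeff i ∈ dom G := fun i => by
    rw [map1_coeff]; exact ⟨_, (p.coeff i).2⟩
  obtain ⟨c, ⟨b, hcb⟩, hNC⟩ := exists_NC hE (dom G) (by
    simpa using dom_natCast G 0) (map1 p) (by
      intro e he c hc0
      have h1 := hasse_ne_zero he
      have h2 := dom_hasse hc e
      have h3 : c ∈ A := hA _ h1 (fun i => dom_sub_A h (h2 i)) c hc0
      refine hmin c h3 _ h1 h2 (lt_of_le_of_lt ?_ hp) hc0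
      have h4 : (hasseDeriv e (map1 p)).natDegree ≤ (map1 p).natDegree - e :=
        natDegree_hasseDeriv_le _ _
      exact_mod_cast h4.trans (Nat.sub_le _ _)) α hα'
  exact eval_sim h p (c, b) hcb hα (hβ (c, b) hcb) hNC

/-- The transcendental step. -/
lemma trans_step [CharZero E.k] (hE : E.Hens) (hF : SatB F) {G : Subring (E.K × F.K)}
    (h : GoodG D G) (hGc : (G : Set (E.K × F.K)).Countable) (hA : RelClosed A)
    (hmin : ∀ x ∈ A, ∀ P : E.K[X], P ≠ 0 → (∀ i, P.coeff i ∈ dom G) →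
      P.eval x = 0 → x ∈ dom G)
    {α : E.K} (hα : α ∈ A) (hα' : α ∉ dom G) : ∃ β, GoodG D (adjG G (α, β)) := by
  classical
  obtain ⟨β, hβ⟩ := hF ((fun p : E.K × F.K => (p.2, D.Y (α - p.1))) '' (G : Set (E.K × F.K)))
    (hGc.image _) (by
      intro s hs
      by_cases hse : s = ∅
      · subst hse
        exact ⟨0, by simp⟩
      have hex : ∀ q : F.K × F.K, q ∈ s → ∃ p ∈ G, (p.2, D.Y (α - p.1)) = q := by
        intro q hq
        obtain ⟨p, hp, hpq⟩ := hs hq
        exact ⟨p, hp, hpq⟩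
      choose! f hf1 hf2 using hex
      obtain ⟨q, hq, hqmax⟩ := Finset.exists_max_image s (fun q => E.v (α - (f q).1))
        (Finset.nonempty_iff_ne_empty.mpr hse)
      obtain ⟨c, hc⟩ : ∃ c, c = (f q).1 := ⟨_, rfl⟩
      obtain ⟨b, hb⟩ : ∃ b, b = (f q).2 := ⟨_, rfl⟩
      have hcb : (c, b) ∈ G := by rw [hc, hb]; exact hf1 q hq
      refine ⟨b + D.Y (α - c), fun r hr => ?_⟩
      obtain ⟨c', hc'⟩ : ∃ c, c = (f r).1 := ⟨_, rfl⟩
      obtain ⟨b', hb'⟩ : ∃ b, b = (f r).2 := ⟨_, rfl⟩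
      have hcb' : (c', b') ∈ G := by rw [hc', hb']; exact hf1 r hr
      have hr' : r = (b', D.Y (α - c')) := by rw [hc', hb']; exact (hf2 r hr).symm
      have hle : E.v (α - c') ≤ E.v (α - c) := by rw [hc, hc']; exact hqmax r hr
      rw [hr']
      have hcA : c ∈ A := (h _ hcb).1
      have hcA' : c' ∈ A := (h _ hcb').1
      have hne : α - c' ≠ 0 := by
        intro h0
        rw [sub_eq_zero] at h0
        exact hα' ⟨b', by rw [h0]; exact hcb'⟩
      have hsub := G.sub_mem hcb hcb'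
      rw [Prod.mk_sub_mk] at hsub
      have e1 : α - c' = (α - c) + (c - c') := by ring
      have hs1 : F.sim (D.Y (α - c) + (b - b')) (D.Y (α - c')) := by
        rw [e1]
        refine LiftData.add_sim (A.sub_mem hα hcA) (A.sub_mem hcA hcA') (VF.sim_refl _)
          (h _ hsub).2 ?_ ?_
        · rw [← e1]; exact hle
        · rw [← e1]
          have e2 : c - c' = (α - c') - (α - c) := by ring
          rw [e2]
          exact AddValuation.map_le_sub _ le_rfl hle
      have hYne := D.Y_ne_zero (A.sub_mem hα hcA') hne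
      rw [VF.sim_iff hYne] at hs1
      have e3 : b + D.Y (α - c) - b' - D.Y (α - c')
          = D.Y (α - c) + (b - b') - D.Y (α - c') := by ring
      change F.v (D.Y (α - c')) < F.v (b + D.Y (α - c) - b' - D.Y (α - c'))
      rw [e3]
      exact hs1)
  refine ⟨β, good_adj h hα fun p => ?_⟩
  refine eval_of_min hE h hA ⊤ (fun x hx P hP hc _ h0 => hmin x hx P hP hc h0) hα hα' ?_ p
    (ENat.natCast_lt_top _)
  intro p hp
  have h1 := hβ _ ⟨p, hp, rfl⟩
  right
  exact h1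

end

end Pool.Agent.Lib.MP_65f174_lc.AKE
end

section

set_option autoImplicit false

/-!
# The embedding lemma, algebraic step
-/

namespace Pool.Agent.Lib.MP_65f174_lc.AKE

universe u

open Polynomial

section

variable {E F : VF.{u}} {A : Subfield E.K} {D : LiftData E F A}

/-- the data of a collision for the pair `(c, b)` of the graph -/
lemma root_data [CharZero E.k] (hE : E.Hens) {G : Subring (E.K × F.K)} (h : GoodG D G)
    (p : G[X]) (hpm : p.Monic) {α : E.K} (hα : α ∈ A)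
    (h0 : (map1 p).eval α = 0) {c : E.K} {b : F.K} (hcb : (c, b) ∈ G) (hne : α ≠ c)
    (hno : ∀ e, 1 ≤ e → e < (map1 p).natDegree → ∀ c', (hasseDeriv e (map1 p)).eval c' = 0 →
      E.v (α - c') ≤ E.v (α - c)) :
    ∃ R : F.K[X], VF.IntC R ∧ 0 < F.v (R.eval 1) ∧ F.v (R.derivative.eval 1) = 0 ∧
      ∃ l : F.K, l ≠ 0 ∧ R = VF.Rp (map2 p) b (D.Y (α - c)) l := by
  have hcA : c ∈ A := (h _ hcb).1
  have hαc : α - c ∈ A := A.sub_mem hα hcA
  have hαc0 : α - c ≠ 0 := sub_ne_zero.mpr hne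
  have hm1 : (map1 p).Monic := hpm.map _
  have hnc : ¬ VF.NC (map1 p) c α := by
    intro hcon
    have h1 := hcon (map1 p).natDegree
    rw [h0, AddValuation.map_zero, top_le_iff, E.v_top_iff] at h1
    rcases mul_eq_zero.mp h1 with h2 | h2
    · have h3 : (taylor c (map1 p)).coeff (map1 p).natDegree = 1 := by
        have := leadingCoeff_taylor c (f := map1 p)
        rw [hm1.leadingCoeff, leadingCoeff, natDegree_taylor] at this
        exact this
      rw [h3] at h2
      exact one_ne_zero h2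
    · exact pow_ne_zero _ hαc0 h2
  obtain ⟨l, hl, hR, _, ⟨j0, hj0⟩, hR1, e, he1, ⟨c', hc1, hc2⟩, he2⟩ :=
    VF.collision hE (map1 p) c α hne hnc
  have he0 : e = 0 := by
    by_contra hcon
    exact absurd hc2 (not_lt.mpr (hno e (by omega) he1 c' hc1))
  have hR2 := he2 he0
  have hmem : ∀ j, (taylor c (map1 p)).coeff j ∈ A := fun j =>
    (h _ (taylor_pair p (c, b) hcb j)).1
  have hlA : l ∈ A := by rw [hj0]; exact A.mul_mem (hmem j0) (A.pow_mem hαc j0)
  have hYl := D.Y_ne_zero hlA hl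
  obtain ⟨R, hRd⟩ : ∃ R, R = VF.Rp (map1 p) c (α - c) l := ⟨_, rfl⟩
  obtain ⟨R', hRd'⟩ : ∃ R, R = VF.Rp (map2 p) b (D.Y (α - c)) (D.Y l) := ⟨_, rfl⟩
  rw [← hRd] at hR hR1 hR2
  have hRA : ∀ j, R.coeff j ∈ A := by
    intro j
    rw [hRd, VF.Rp_coeff]
    exact A.div_mem (A.mul_mem (hmem j) (A.pow_mem hαc j)) hlA
  have hrc : ∀ j, D.rc (R.coeff j) (R'.coeff j) := by
    intro j
    refine LiftData.rc_of_sim (hRA j) (hR j) ?_
    rw [hRd, hRd', VF.Rp_coeff, VF.Rp_coeff]
    have s1 : F.sim ((taylor b (map2 p)).coeff j) (D.Y ((taylor c (map1 p)).coeff j)) :=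
      (h _ (taylor_pair p (c, b) hcb j)).2
    refine VF.sim_trans ?_ (VF.sim_symm (D.Y_div (A.mul_mem (hmem j) (A.pow_mem hαc j)) hlA hl))
    refine VF.sim_div ?_ (VF.sim_refl _)
    refine VF.sim_symm (VF.sim_trans (D.mul _ (hmem j) _ (A.pow_mem hαc j)) ?_)
    exact VF.sim_mul (VF.sim_symm s1) (LiftData.pow_sim hαc j)
  have hd1 : ∀ j, max R.natDegree R'.natDegree + 1 ≤ j → R.coeff j = 0 := fun j hj =>
    coeff_eq_zero_of_natDegree_lt (by omega)
  obtain ⟨N, hN⟩ : ∃ N, N = max R.natDegree R'.natDegree + 1 := ⟨_, rfl⟩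
  have e1 : R.eval 1 = ∑ j ∈ Finset.range N, R.coeff j := by
    rw [eval_eq_sum_range' (n := N) (by omega)]
    simp
  have e2 : R'.eval 1 = ∑ j ∈ Finset.range N, R'.coeff j := by
    rw [eval_eq_sum_range' (n := N) (by omega)]
    simp
  have e3 : R.derivative.eval 1 = ∑ j ∈ Finset.range N, R.coeff (j + 1) * ((j + 1 : ℕ) : E.K) := by
    rw [eval_eq_sum_range' (n := N) (by have := natDegree_derivative_le R; omega)]
    refine Finset.sum_congr rfl fun j _ => ?_
    rw [coeff_derivative, one_pow, mul_one]; push_cast; ring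
  have e4 : R'.derivative.eval 1
      = ∑ j ∈ Finset.range N, R'.coeff (j + 1) * ((j + 1 : ℕ) : F.K) := by
    rw [eval_eq_sum_range' (n := N) (by have := natDegree_derivative_le R'; omega)]
    refine Finset.sum_congr rfl fun j _ => ?_
    rw [coeff_derivative, one_pow, mul_one]; push_cast; ring
  refine ⟨R', fun j => (hrc j).2.2.1, ?_, ?_, D.Y l, hYl, hRd'⟩
  · rw [e2]
    refine LiftData.rc_pos (D := D) (x := ∑ j ∈ Finset.range N, R.coeff j)
      (LiftData.rc_sum _ fun j _ => hrc j) ?_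
    rw [← e1]; exact hR1
  · rw [e4]
    refine LiftData.rc_unit (D := D)
      (x := ∑ j ∈ Finset.range N, R.coeff (j + 1) * ((j + 1 : ℕ) : E.K))
      (LiftData.rc_sum _ fun j _ => LiftData.rc_mul_nat (hrc _) _) ?_
    rw [← e3]; exact hR2

/-- The algebraic step. -/
lemma alg_step [CharZero E.k] (hE : E.Hens) (hF : F.Hens) {G : Subring (E.K × F.K)}
    (h : GoodG D G) (hA : RelClosed A) (p : G[X]) (hpm : p.Monic)
    (hmin : ∀ x ∈ A, ∀ P : E.K[X], P ≠ 0 → (∀ i, P.coeff i ∈ dom G) →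
      P.natDegree < p.natDegree → P.eval x = 0 → x ∈ dom G)
    {α : E.K} (hα : α ∈ A) (hα' : α ∉ dom G) (h0 : (map1 p).eval α = 0) :
    ∃ β, GoodG D (adjG G (α, β)) := by
  classical
  have hchar := charZero_field E
  have hm1 : (map1 p).Monic := hpm.map _
  have hdeg : (map1 p).natDegree = p.natDegree := hpm.natDegree_map _
  have hco : ∀ i, (map1 p).coeff i ∈ dom G := fun i => by
    rw [map1_coeff]; exact ⟨_, (p.coeff i).2⟩
  -- the relevant points
  let Z : Finset E.K := insert 0 ((Finset.Ico 1 (map1 p).natDegree).biUnion fun e =>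
    (hasseDeriv e (map1 p)).roots.toFinset)
  have hZ : ∀ c ∈ Z, c ∈ dom G := by
    intro c hc
    rw [Finset.mem_insert, Finset.mem_biUnion] at hc
    rcases hc with rfl | ⟨e, he, hc⟩
    · simpa using dom_natCast G 0
    · rw [Multiset.mem_toFinset, mem_roots'] at hc
      rw [Finset.mem_Ico] at he
      have h2 := dom_hasse hco e
      have h3 : c ∈ A := hA _ hc.1 (fun i => dom_sub_A h (h2 i)) c hc.2
      refine hmin c h3 _ hc.1 h2 ?_ hc.2
      have h4 : (hasseDeriv e (map1 p)).natDegree ≤ (map1 p).natDegree - e :=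
        natDegree_hasseDeriv_le _ _
      omega
  obtain ⟨c, hc, hmax⟩ := Finset.exists_max_image Z (fun c => E.v (α - c)) ⟨0, by simp [Z]⟩
  obtain ⟨b, hcb⟩ := hZ c hc
  have hnoZ : ∀ e, 1 ≤ e → e < (map1 p).natDegree → ∀ c', (hasseDeriv e (map1 p)).eval c' = 0 →
      E.v (α - c') ≤ E.v (α - c) := by
    intro e he1 he2 c' hc'
    refine hmax c' ?_
    rw [Finset.mem_insert, Finset.mem_biUnion]
    right
    refine ⟨e, Finset.mem_Ico.mpr ⟨he1, he2⟩, ?_⟩
    rw [Multiset.mem_toFinset, mem_roots']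
    exact ⟨hasse_ne_zero he2, hc'⟩
  have hne : ∀ c' ∈ dom G, α ≠ c' := by
    rintro c' hc' rfl
    exact hα' hc'
  -- a root for each pair
  have hroot : ∀ c' b', (c', b') ∈ G → E.v (α - c) ≤ E.v (α - c') →
      ∃ β, (map2 p).eval β = 0 ∧ F.sim (β - b') (D.Y (α - c')) := by
    intro c' b' hcb' hle
    obtain ⟨R, hR, hR1, hR2, l, hl, hRd⟩ := root_data hE h p hpm hα h0 hcb'
      (hne c' ⟨b', hcb'⟩) (fun e he1 he2 c'' hc'' => (hnoZ e he1 he2 c'' hc'').trans hle)
    have h10 : 0 ≤ F.v (1 : F.K) := by rw [AddValuation.map_one]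
    obtain ⟨y, hy1, hy2⟩ := VF.hens_gen hF R hR 1 h10 hR1 hR2
    refine ⟨b' + D.Y (α - c') * y, ?_, ?_⟩
    · rw [hRd, VF.Rp_eval, div_eq_zero_iff] at hy1
      exact hy1.resolve_right hl
    · rw [add_sub_cancel_left]
      have hy3 : F.sim y 1 := Or.inr (by rw [AddValuation.map_one]; exact hy2)
      have := VF.sim_mul (VF.sim_refl (F := F) (D.Y (α - c'))) hy3
      rwa [mul_one] at this
  obtain ⟨β, hβ1, hβ2⟩ := hroot c b hcb le_rfl
  have hcA : c ∈ A := (h _ hcb).1
  -- uniqueness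
  have huniq : ∀ β', (map2 p).eval β' = 0 → F.sim (β' - b) (D.Y (α - c)) → β = β' := by
    intro β' hβ1' hβ2'
    obtain ⟨R, hR, hR1, hR2, l, hl, hRd⟩ := root_data hE h p hpm hα h0 hcb
      (hne c ⟨b, hcb⟩) hnoZ
    have hY := D.Y_ne_zero (A.sub_mem hα hcA) (sub_ne_zero.mpr (hne c ⟨b, hcb⟩))
    have g1 : F.sim ((β - b) / D.Y (α - c)) 1 := (VF.sim_iff_div hY).mp hβ2
    have g2 : F.sim ((β' - b) / D.Y (α - c)) 1 := (VF.sim_iff_div hY).mp hβ2'
    have r1 : R.eval ((β - b) / D.Y (α - c)) = 0 := by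
      rw [hRd, VF.Rp_eval, mul_div_cancel₀ _ hY, add_sub_cancel, hβ1, zero_div]
    have r2 : R.eval ((β' - b) / D.Y (α - c)) = 0 := by
      rw [hRd, VF.Rp_eval, mul_div_cancel₀ _ hY, add_sub_cancel, hβ1', zero_div]
    have k1 := VF.sim_one_iff.mp g1
    have k2 := VF.sim_one_iff.mp g2
    have h10 : 0 ≤ F.v (1 : F.K) := by rw [AddValuation.map_one]
    have k3 : 0 < F.v ((β' - b) / D.Y (α - c) - (β - b) / D.Y (α - c)) := by
      rw [← F.res_eq_iff k2.1 k1.1, k1.2, k2.2]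
    have k4 : F.v (R.derivative.eval ((β - b) / D.Y (α - c))) = 0 := by
      refine F.v_eq_zero_of_res (hR.deriv.eval k1.1) ?_
      rw [VF.res_eval hR.deriv k1.1, k1.2]
      have := F.res_ne_zero hR2
      rwa [VF.res_eval hR.deriv h10, F.res_one] at this
    have k5 := VF.hens_unique R hR k1.1 r1 r2 k3 k4
    have k6 : (β - b) = (β' - b) := by
      have k7 : (β - b) / D.Y (α - c) * D.Y (α - c) = (β' - b) / D.Y (α - c) * D.Y (α - c) := by
        rw [k5]
      rwa [div_mul_cancel₀ _ hY, div_mul_cancel₀ _ hY] at k7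
    exact sub_left_injective k6
  have hβ : ∀ q ∈ G, F.sim (β - q.2) (D.Y (α - q.1)) := by
    rintro ⟨c', b'⟩ hcb'
    have hcA' : c' ∈ A := (h _ hcb').1
    change F.sim (β - b') (D.Y (α - c'))
    rcases lt_or_ge (E.v (α - c')) (E.v (α - c)) with hlt | hge
    · have hsub := G.sub_mem hcb hcb'
      rw [Prod.mk_sub_mk] at hsub
      have e1 : α - c' = (α - c) + (c - c') := by ring
      have e2 : β - b' = (β - b) + (b - b') := by ring
      rw [e1, e2]
      refine LiftData.add_sim (A.sub_mem hα hcA) (A.sub_mem hcA hcA') hβ2 (h _ hsub).2 ?_ ?_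
      · rw [← e1]; exact hlt.le
      · rw [← e1]
        have e3 : c - c' = (α - c') - (α - c) := by ring
        rw [e3]
        exact AddValuation.map_le_sub _ le_rfl hlt.le
    · obtain ⟨β', hb1, hb2⟩ := hroot c' b' hcb' hge
      have hsub := G.sub_mem hcb' hcb
      rw [Prod.mk_sub_mk] at hsub
      have e1 : α - c = (α - c') + (c' - c) := by ring
      have e2 : β' - b = (β' - b') + (b' - b) := by ring
      have e4 : F.sim (β' - b) (D.Y (α - c)) := by
        rw [e1, e2]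
        refine LiftData.add_sim (A.sub_mem hα hcA') (A.sub_mem hcA' hcA) hb2 (h _ hsub).2 ?_ ?_
        · rw [← e1]; exact hge
        · rw [← e1]
          have e3 : c' - c = (α - c) - (α - c') := by ring
          rw [e3]
          exact AddValuation.map_le_sub _ le_rfl hge
      rw [huniq β' hb1 e4]
      exact hb2
  refine ⟨β, good_adj h hα fun q => ?_⟩
  -- reduction modulo `p`
  have hq : q = q %ₘ p + p * (q /ₘ p) := (modByMonic_add_div q p).symm
  have m1 : (map1 q).eval α = (map1 (q %ₘ p)).eval α := by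
    conv_lhs => rw [hq]
    unfold map1 at h0 ⊢
    rw [Polynomial.map_add, Polynomial.map_mul, eval_add, eval_mul, h0, zero_mul, add_zero]
  have m2 : (map2 q).eval β = (map2 (q %ₘ p)).eval β := by
    conv_lhs => rw [hq]
    unfold map2 at hβ1 ⊢
    rw [Polynomial.map_add, Polynomial.map_mul, eval_add, eval_mul, hβ1, zero_mul, add_zero]
  rw [m1, m2]
  have hp1 : p.natDegree ≠ 0 := by
    intro h1
    have h2 : map1 p = 1 := by
      have := hm1.natDegree_eq_zero.mp (by rw [hdeg, h1])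
      exact this
    rw [h2, eval_one] at h0
    exact one_ne_zero h0
  refine eval_of_min hE h hA (p.natDegree : ℕ∞) (fun x hx P hP hPc hPd hP0 =>
    hmin x hx P hP hPc (by exact_mod_cast hPd) hP0) hα hα' hβ (q %ₘ p) ?_
  have h5 : (map1 (q %ₘ p)).natDegree ≤ (q %ₘ p).natDegree := natDegree_map_le
  have h6 : (q %ₘ p).natDegree < p.natDegree := natDegree_modByMonic_lt q hpm (by
    rintro rfl; exact hp1 natDegree_one)
  exact_mod_cast lt_of_le_of_lt h5 h6

/-- **The embedding lemma.** A compatible graph extends to a compatible graph with domain `A`. -/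
theorem embed [CharZero E.k] (hE : E.Hens) (hF : F.Hens) (hFs : SatB F)
    (hA : RelClosed A) (hAc : (A : Set E.K).Countable) {G₀ : Subring (E.K × F.K)}
    (h₀ : GoodG D G₀) : ∃ G, G₀ ≤ G ∧ GoodG D G ∧ (∀ x ∈ A, ∃ y, (x, y) ∈ G) ∧
      ∀ x y, (x, y) ∈ G → (x⁻¹, y⁻¹) ∈ G := by
  classical
  obtain ⟨G, hG1, hG2, hmax⟩ := exists_maximal h₀
  have hinv : ∀ x y, (x, y) ∈ G → (x⁻¹, y⁻¹) ∈ G := fun x y hxy => dom_div hG2 hmax hxy
  have hstep : ∀ α ∈ A, ∀ β, GoodG D (adjG G (α, β)) → α ∈ dom G := by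
    intro α _ β hβ
    exact ⟨β, hmax _ (le_adjG _ _) hβ (mem_adjG _ _)⟩
  refine ⟨G, hG1, hG2, ?_, hinv⟩
  -- no algebraic elements
  have halg : ∀ x ∈ A, ∀ P : E.K[X], P ≠ 0 → (∀ i, P.coeff i ∈ dom G) →
      P.eval x = 0 → x ∈ dom G := by
    by_contra hcon
    push Not at hcon
    obtain ⟨x, hx, P, hP, hPc, hP0, hxd⟩ := hcon
    have hex : ∃ n, ∃ x ∈ A, ∃ P : E.K[X], P ≠ 0 ∧ (∀ i, P.coeff i ∈ dom G) ∧
        P.eval x = 0 ∧ x ∉ dom G ∧ P.natDegree = n := ⟨_, x, hx, P, hP, hPc, hP0, hxd, rfl⟩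
    obtain ⟨n, hn⟩ : ∃ n, n = Nat.find hex := ⟨_, rfl⟩
    obtain ⟨α, hα, Q, hQ, hQc, hQ0, hαd, hQn⟩ := Nat.find_spec hex
    rw [← hn] at hQn
    have hmin : ∀ x ∈ A, ∀ P : E.K[X], P ≠ 0 → (∀ i, P.coeff i ∈ dom G) →
        P.natDegree < n → P.eval x = 0 → x ∈ dom G := by
      intro x hx P hP hPc hPn hP0
      by_contra hxd
      rw [hn] at hPn
      exact Nat.find_min hex hPn ⟨x, hx, P, hP, hPc, hP0, hxd, rfl⟩
    have hlc : Q.leadingCoeff ≠ 0 := leadingCoeff_ne_zero.mpr hQ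
    have hlcd : Q.leadingCoeff⁻¹ ∈ dom G := by
      obtain ⟨y, hy⟩ := hQc Q.natDegree
      exact ⟨y⁻¹, hinv _ _ hy⟩
    have hQ1m : (Q * C Q.leadingCoeff⁻¹).Monic := monic_mul_leadingCoeff_inv hQ
    obtain ⟨p, hp1, hp2, hp3⟩ := lift_monic (G := G) (Q * C Q.leadingCoeff⁻¹)
      (fun i => by rw [coeff_mul_C]; exact dom_mul (hQc i) hlcd) hQ1m
    have hd : p.natDegree = n := by
      rw [hp3, natDegree_mul_C (inv_ne_zero hlc), hQn]
    obtain ⟨β, hβ⟩ := alg_step hE hF hG2 hA p hp2 (by rw [hd]; exact hmin) hα hαd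
      (by rw [hp1, eval_mul, hQ0, zero_mul])
    exact hαd (hstep α hα β hβ)
  intro α hα
  by_contra hαd
  have hαd' : α ∉ dom G := hαd
  obtain ⟨β, hβ⟩ := trans_step hE hFs hG2 (hG2.countable hAc) hA halg hα hαd'
  exact hαd' (hstep α hα β hβ)

end

end Pool.Agent.Lib.MP_65f174_lc.AKE
end

section

set_option autoImplicit false

/-!
# Lifting in ultrapowers
-/

namespace Pool.Agent.Lib.MP_65f174_lc.AKE

universe u

open Filter

/-- Ultrapowers realise countable systems of approximations. -/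
theorem satB_ultra {U : Ultrafilter ℕ} (hU : (U : Filter ℕ) ≤ atTop) (F₀ : VF.{u}) :
    SatB (F₀.ultra U) := by
  classical
  intro S hS hfin
  have : Countable S := hS.to_subtype
  let C : S → (PUnit.{u + 1} → (F₀.ultra U).K) → Prop := fun p y =>
    (F₀.ultra U).v p.1.2 < (F₀.ultra U).v (y PUnit.unit - p.1.1 - p.1.2)
  obtain ⟨y, hy⟩ : ∃ y : PUnit.{u + 1} → (F₀.ultra U).K, ∀ i, C i y :=
    sat_internal hU (M := F₀.K) (J := PUnit.{u + 1}) (I := S) C (by
      rintro ⟨⟨b, c⟩, hp⟩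
      obtain ⟨b, rfl⟩ := gK_surj b
      obtain ⟨c, rfl⟩ := gK_surj c
      refine ⟨fun i y => F₀.v (c i) < F₀.v (y PUnit.unit - b i - c i), fun y => ?_⟩
      change (F₀.ultra U).v (gK U c) < (F₀.ultra U).v (gK U (y PUnit.unit) - gK U b - gK U c) ↔ _
      rw [gK_sub, gK_sub, v_gK, v_gK, gT_lt]) (by
      intro s
      obtain ⟨b, hb⟩ := hfin (s.image Subtype.val) (by
        intro p hp
        rw [Finset.coe_image] at hp
        obtain ⟨q, _, rfl⟩ := hp
        exact q.2)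
      exact ⟨fun _ => b, fun p hp => hb p.1 (Finset.mem_image_of_mem _ hp)⟩)
  exact ⟨y PUnit.unit, fun p hp => hy ⟨p, hp⟩⟩

section

variable {U : Ultrafilter ℕ} {E F₀ : VF.{u}} {A : Subfield E.K}
  {G : Subring (E.K × (F₀.ultra U).K)} {gr : E.k → (F₀.ultra U).k} {gv : E.G → (F₀.ultra U).G}

/-- nonzero elements of `A` -/
abbrev NZ (A : Subfield E.K) : Type u := {x : E.K // x ∈ A ∧ x ≠ 0}

/-- **Existence of lifts.** -/
theorem exists_lift (hU : (U : Filter ℕ) ≤ atTop) (H : LiftHyp E (F₀.ultra U) A G gr gv)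
    (hA : (A : Set E.K).Countable) (hG : (G : Set (E.K × (F₀.ultra U).K)).Countable) :
    ∃ D : LiftData E (F₀.ultra U) A, D.g = gr ∧ GoodG D G ∧
      ∀ x ∈ A, x ≠ 0 → (F₀.ultra U).vG (D.Y x) = gv (E.vG x) := by
  classical
  obtain ⟨F, hF⟩ : ∃ F : VF.{u}, F = F₀.ultra U := ⟨_, rfl⟩
  have : Countable (NZ A) := (hA.mono (fun x hx => hx.1) :
    {x : E.K | x ∈ A ∧ x ≠ 0}.Countable).to_subtype
  let GN : Type u := {p : E.K × (F₀.ultra U).K // p ∈ G ∧ p.1 ≠ 0}
  have : Countable GN := (hG.mono (fun p hp => hp.1) :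
    {p : E.K × (F₀.ultra U).K | p ∈ G ∧ p.1 ≠ 0}.Countable).to_subtype
  let prd : NZ A → NZ A → NZ A := fun x y => ⟨x.1 * y.1, A.mul_mem x.2.1 y.2.1,
    mul_ne_zero x.2.2 y.2.2⟩
  let pr : GN → NZ A := fun p => ⟨p.1.1, H.GA _ p.2.1, p.2.2⟩
  let I : Type u := (NZ A × NZ A) ⊕ NZ A ⊕ NZ A ⊕ GN
  let C : I → (NZ A → (F₀.ultra U).K) → Prop := fun i y => match i with
    | .inl (x, x') => (F₀.ultra U).v (y x * y x') < (F₀.ultra U).v (y (prd x x') - y x * y x')
    | .inr (.inl x) => (F₀.ultra U).v (y x)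
        = ((gv (E.vG x.1) : (F₀.ultra U).G) : WithTop (F₀.ultra U).G)
    | .inr (.inr (.inl x)) => E.v x.1 = 0 → (F₀.ultra U).res (y x) = gr (E.res x.1)
    | .inr (.inr (.inr p)) => (F₀.ultra U).v (y (pr p)) < (F₀.ultra U).v (p.1.2 - y (pr p))
  obtain ⟨y, hy⟩ : ∃ y : NZ A → (F₀.ultra U).K, ∀ i, C i y :=
    sat_internal hU (M := F₀.K) (J := NZ A) (I := I) C (by
      rintro (⟨x, x'⟩ | x | x | p)
      · refine ⟨fun i y => F₀.v (y x * y x') < F₀.v (y (prd x x') - y x * y x'), fun y => ?_⟩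
        change (F₀.ultra U).v (gK U (y x) * gK U (y x'))
          < (F₀.ultra U).v (gK U (y (prd x x')) - gK U (y x) * gK U (y x')) ↔ _
        rw [gK_mul, gK_sub, v_gK, v_gK, gT_lt]
      · obtain ⟨a, ha⟩ := gG_surj (gv (E.vG x.1))
        refine ⟨fun i y => F₀.v (y x) = (a i : WithTop F₀.G), fun y => ?_⟩
        change (F₀.ultra U).v (gK U (y x))
          = ((gv (E.vG x.1) : (F₀.ultra U).G) : WithTop (F₀.ultra U).G) ↔ _
        rw [ha, gT_coe, v_gK, gT_eq]
      · by_cases hx : E.v x.1 = 0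
        · obtain ⟨a, ha⟩ := gk_surj (gr (E.res x.1))
          refine ⟨fun i y => F₀.res (y x) = a i, fun y => ?_⟩
          change (E.v x.1 = 0 → (F₀.ultra U).res (gK U (y x)) = gr (E.res x.1)) ↔ _
          rw [ha, res_gK, gk_eq]
          exact ⟨fun h => h hx, fun h _ => h⟩
        · refine ⟨fun _ _ => True, fun y => ?_⟩
          change (E.v x.1 = 0 → (F₀.ultra U).res (gK U (y x)) = gr (E.res x.1)) ↔ _
          exact ⟨fun _ => Filter.Eventually.of_forall fun _ => trivial, fun _ h => absurd h hx⟩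
      · obtain ⟨b, hb⟩ := gK_surj p.1.2
        refine ⟨fun i y => F₀.v (y (pr p)) < F₀.v (b i - y (pr p)), fun y => ?_⟩
        change (F₀.ultra U).v (gK U (y (pr p))) < (F₀.ultra U).v (p.1.2 - gK U (y (pr p))) ↔ _
        rw [hb, gK_sub, v_gK, v_gK, gT_lt]) (by
      intro s
      let el : I → Finset E.K := fun i => match i with
        | .inl (x, x') => {x.1, x'.1, (prd x x').1}
        | .inr (.inl x) => {x.1}
        | .inr (.inr (.inl x)) => {x.1}
        | .inr (.inr (.inr p)) => {(pr p).1}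
      obtain ⟨T, hT, hTS⟩ := exists_theta H (s.biUnion el) (by
        intro x hx
        rw [Finset.mem_biUnion] at hx
        obtain ⟨i, _, hi⟩ := hx
        rcases i with ⟨x, x'⟩ | x | x | p
        · simp only [el, Finset.mem_insert, Finset.mem_singleton] at hi
          rcases hi with rfl | rfl | rfl
          · exact x.2
          · exact x'.2
          · exact (prd x x').2
        · simp only [el, Finset.mem_singleton] at hi
          rw [hi]; exact x.2
        · simp only [el, Finset.mem_singleton] at hi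
          rw [hi]; exact x.2
        · simp only [el, Finset.mem_singleton] at hi
          rw [hi]; exact (pr p).2)
      let y : NZ A → (F₀.ultra U).K := fun x => if h : ∃ y, (x.1, y) ∈ T then h.choose else 0
      have hy : ∀ i ∈ s, ∀ x : NZ A, x.1 ∈ el i → (x.1, y x) ∈ T := by
        intro i hi x hx
        have h := hTS x.1 (Finset.mem_biUnion.mpr ⟨i, hi, hx⟩)
        simp only [y]
        rw [dif_pos h]
        exact h.choose_spec
      have hone : ∀ c, ((1 : E.K), c) ∈ T → (F₀.ultra U).sim c 1 := by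
        intro c hc
        have h1 := hT.val _ hc
        have h2 := hT.res _ hc E.vG_one
        have h3 := hT.ne2 _ hc
        simp only at h1 h2 h3
        rw [E.vG_one, H.gv_zero] at h1
        rw [E.res_one, H.r_one] at h2
        rw [VF.sim_one_iff]
        exact ⟨(((F₀.ultra U).v_zero_iff h3).mpr h1).ge, h2⟩
      have htwo : ∀ x c c', (x, c) ∈ T → (x, c') ∈ T → (F₀.ultra U).sim c' c := by
        intro x c c' hc hc'
        have h1 := hT.mul _ hc' _ (hT.inv _ hc)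
        have h2 : ((x, c') * (x, c)⁻¹ : E.K × (F₀.ultra U).K) = (1, c' / c) := by
          ext
          · exact mul_inv_cancel₀ (hT.ne1 (x, c) hc)
          · exact (div_eq_mul_inv c' c).symm
        rw [h2] at h1
        exact (VF.sim_iff_div (hT.ne2 _ hc)).mpr (hone _ h1)
      refine ⟨y, fun i hi => ?_⟩
      rcases i with ⟨x, x'⟩ | x | x | p
      · have h1 := hy _ hi x (by simp [el])
        have h2 := hy _ hi x' (by simp [el])
        have h3 := hy _ hi (prd x x') (by simp [el])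
        have h4 := htwo _ _ _ (hT.mul _ h1 _ h2) h3
        exact (VF.sim_iff (mul_ne_zero (hT.ne2 _ h1) (hT.ne2 _ h2))).mp h4
      · have h1 := hy _ hi x (by simp [el])
        change (F₀.ultra U).v (y x) = _
        rw [(F₀.ultra U).vG_spec (hT.ne2 _ h1)]
        exact congrArg _ (hT.val _ h1)
      · have h1 := hy _ hi x (by simp [el])
        intro hx
        exact hT.res _ h1 ((E.v_zero_iff x.2.2).mp hx)
      · have h1 := hy _ hi (pr p) (by simp [el])
        have h2 := hT.sub _ p.2.1 p.2.2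
        have h4 := htwo _ _ _ h1 h2
        exact (VF.sim_iff (hT.ne2 _ h1)).mp h4)
  have hy1 : ∀ x x' : NZ A, (F₀.ultra U).sim (y (prd x x')) (y x * y x') := fun x x' =>
    Or.inr (hy (.inl (x, x')))
  have hy2 : ∀ x : NZ A, (F₀.ultra U).v (y x)
      = ((gv (E.vG x.1) : (F₀.ultra U).G) : WithTop (F₀.ultra U).G) := fun x => hy (.inr (.inl x))
  have hy3 : ∀ x : NZ A, E.v x.1 = 0 → (F₀.ultra U).res (y x) = gr (E.res x.1) := fun x =>
    hy (.inr (.inr (.inl x)))
  have hy4 : ∀ p : GN, (F₀.ultra U).sim p.1.2 (y (pr p)) := fun p =>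
    Or.inr (hy (.inr (.inr (.inr p))))
  let Y : E.K → (F₀.ultra U).K := fun x => if h : x ∈ A ∧ x ≠ 0 then y ⟨x, h⟩ else 0
  have hYpos : ∀ x (h : x ∈ A ∧ x ≠ 0), Y x = y ⟨x, h⟩ := fun x h => by
    simp only [Y]; rw [dif_pos h]
  have hY0 : Y 0 = 0 := by
    simp only [Y]
    rw [dif_neg]
    rintro ⟨_, h⟩
    exact h rfl
  have hv : ∀ x ∈ A, x ≠ 0 → (F₀.ultra U).v (Y x)
      = ((gv (E.vG x) : (F₀.ultra U).G) : WithTop (F₀.ultra U).G) := by
    intro x hx hx0
    rw [hYpos x ⟨hx, hx0⟩]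
    exact hy2 _
  let D : LiftData E (F₀.ultra U) A :=
    { Y := Y
      g := gr
      zero := hY0
      mul := by
        intro x hx x' hx'
        by_cases h0 : x = 0
        · rw [h0, zero_mul, hY0, zero_mul]; exact VF.sim_refl _
        by_cases h0' : x' = 0
        · rw [h0', mul_zero, hY0, mul_zero]; exact VF.sim_refl _
        rw [hYpos x ⟨hx, h0⟩, hYpos x' ⟨hx', h0'⟩,
          hYpos (x * x') ⟨A.mul_mem hx hx', mul_ne_zero h0 h0'⟩]
        exact hy1 ⟨x, hx, h0⟩ ⟨x', hx', h0'⟩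
      nonneg := by
        intro x hx
        by_cases h0 : x = 0
        · subst h0
          rw [hY0, AddValuation.map_zero, AddValuation.map_zero]
          simp
        · rw [hv x hx h0, E.vG_spec h0, ← WithTop.coe_zero, ← WithTop.coe_zero,
            WithTop.coe_le_coe, WithTop.coe_le_coe]
          have h1 := H.v_le 1 A.one_mem x hx one_ne_zero h0
          rw [E.vG_one, H.gv_zero] at h1
          exact h1
      res_eq := by
        intro x hx h0
        by_cases hx0 : x = 0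
        · subst hx0
          rw [hY0, VF.res_zero, E.res_zero, H.gr_zero]
        by_cases h1 : E.v x = 0
        · rw [hYpos x ⟨hx, hx0⟩]
          exact hy3 ⟨x, hx, hx0⟩ h1
        · have h2 : 0 < E.v x := lt_of_le_of_ne h0 (Ne.symm h1)
          rw [(E.res_zero_iff x h0).mpr h2, H.gr_zero]
          have h3 : 0 < (F₀.ultra U).v (Y x) := by
            rw [hv x hx hx0, ← WithTop.coe_zero, WithTop.coe_lt_coe]
            rw [E.vG_spec hx0, ← WithTop.coe_zero, WithTop.coe_lt_coe] at h2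
            have h4 := H.v_le x hx 1 A.one_mem hx0 one_ne_zero
            rw [E.vG_one, H.gv_zero] at h4
            rw [← not_le] at h2 ⊢
            rwa [← h4]
          exact ((F₀.ultra U).res_zero_iff _ h3.le).mpr h3
      g_add := H.r_add
      g_one := H.r_one
      g_inj := H.r_inj }
  refine ⟨D, rfl, ?_, ?_⟩
  · intro p hp
    refine ⟨H.GA p hp, ?_⟩
    by_cases h0 : p.1 = 0
    · rw [(H.G0 p hp).mp h0, h0]
      change (F₀.ultra U).sim 0 (Y 0)
      rw [hY0]
      exact VF.sim_refl _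
    · change (F₀.ultra U).sim p.2 (Y p.1)
      rw [hYpos p.1 ⟨H.GA p hp, h0⟩]
      exact hy4 ⟨p, hp, h0⟩
  · intro x hx h0
    exact (F₀.ultra U).vG_eq (hv x hx h0)

end

end Pool.Agent.Lib.MP_65f174_lc.AKE
end
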