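import Pool.Agent.Lib.MP_65f174_lc.AKE.Data

section

set_option autoImplicit false

/-!
# Łoś' theorem for valued fields
-/

namespace Pool.Agent.Lib.MP_65f174_lc.AKE

universe u

open Filter

section

variable {U : Ultrafilter ℕ}

lemma ev_exists {X : Type*} [Nonempty X] {P : ℕ → X → Prop} :
    (∀ᶠ j in (U : Filter ℕ), ∃ x, P j x) ↔ ∃ x : ℕ → X, ∀ᶠ j in (U : Filter ℕ), P j (x j) :=
  Filter.skolem

lemma ev_forall {X : Type*} [Nonempty X] {P : ℕ → X → Prop} :
    (∀ᶠ j in (U : Filter ℕ), ∀ x, P j x) ↔ ∀ x : ℕ → X, ∀ᶠ j in (U : Filter ℕ), P j (x j) := by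
  constructor
  · intro h x
    filter_upwards [h] with j hj
    exact hj _
  · intro h
    by_contra hcon
    rw [← Ultrafilter.eventually_not] at hcon
    simp only [not_forall] at hcon
    rw [ev_exists] at hcon
    obtain ⟨x, hx⟩ := hcon
    obtain ⟨j, h1, h2⟩ := ((h x).and hx).exists
    exact h2 h1

variable {F : VF.{u}}

lemma gT_neg (a : ℕ → WithTop F.G) : (gT U a).map (fun x => -x)
    = gT U (fun i => (a i).map (fun x => -x)) := by
  rcases tg_cases (U := U) a with h | ⟨g, hg⟩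
  · have h1 : gT U a = ⊤ := by
      rw [gT_top, gT_eq]; exact h
    have h2 : gT U (fun i => (a i).map (fun x => -x)) = ⊤ := by
      rw [gT_top, gT_eq]
      filter_upwards [h] with i hi
      rw [hi]; rfl
    rw [h1, h2]
    rfl
  · have h1 : gT U a = gT U (fun i => (g i : WithTop F.G)) := by
      rw [gT_eq]; exact hg
    have h2 : gT U (fun i => (a i).map (fun x => -x))
        = gT U (fun i => ((-(g i) : F.G) : WithTop F.G)) := by
      rw [gT_eq]
      filter_upwards [hg] with i hi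
      rw [hi]; rfl
    rw [h1, h2, ← gT_coe, ← gT_coe, WithTop.map_coe, gG_neg]

theorem ResTm.eval_gk {a b : ℕ} (t : ResTm a b) (e : Fin a → ℕ → F.K) (r : Fin b → ℕ → F.k) :
    t.eval (F.ultra U).res (fun i => gK U (e i)) (fun i => gk U (r i))
      = gk U (fun j => t.eval F.res (fun i => e i j) fun i => r i j) := by
  induction t with
  | var i => rfl
  | zero => exact gk_zero
  | one => exact gk_one
  | neg t ih => simp only [ResTm.eval, ih]; rfl
  | add t s iht ihs => simp only [ResTm.eval, iht, ihs]; rfl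
  | mul t s iht ihs => simp only [ResTm.eval, iht, ihs]; rfl
  | res t =>
    simp only [ResTm.eval]
    rw [RingTm.eval_gK, res_gK]

theorem ValTm.eval_gT {a c : ℕ} (t : ValTm a c) (e : Fin a → ℕ → F.K)
    (g : Fin c → ℕ → WithTop F.G) :
    t.eval (F.ultra U).v (fun i => gK U (e i)) (fun i => gT U (g i))
      = gT U (fun j => t.eval F.v (fun i => e i j) fun i => g i j) := by
  induction t with
  | var i => rfl
  | zero => exact gT_zero
  | infty => exact gT_top
  | neg t ih => simp only [ValTm.eval, ih]; exact gT_neg _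
  | add t s iht ihs => simp only [ValTm.eval, iht, ihs]; exact gT_add _ _
  | val t =>
    simp only [ValTm.eval]
    rw [RingTm.eval_gK, v_gK]

theorem ValQF.los {a b c : ℕ} (θ : ValQF a b c) (e : Fin a → ℕ → F.K) (r : Fin b → ℕ → F.k)
    (g : Fin c → ℕ → WithTop F.G) :
    θ.Holds (F.ultra U).v (F.ultra U).res (fun i => gK U (e i)) (fun i => gk U (r i))
      (fun i => gT U (g i)) ↔
    ∀ᶠ j in (U : Filter ℕ), θ.Holds F.v F.res (fun i => e i j) (fun i => r i j)
      (fun i => g i j) := by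
  induction θ with
  | eqF t s =>
    simp only [ValQF.Holds]
    rw [RingTm.eval_gK, RingTm.eval_gK, gK_eq]
  | eqR t s =>
    simp only [ValQF.Holds]
    rw [ResTm.eval_gk, ResTm.eval_gk, gk_eq]
  | eqG t s =>
    simp only [ValQF.Holds]
    rw [ValTm.eval_gT, ValTm.eval_gT, gT_eq]
  | ltG t s =>
    simp only [ValQF.Holds]
    rw [ValTm.eval_gT, ValTm.eval_gT, gT_lt]
  | not φ ih =>
    simp only [ValQF.Holds]
    rw [ih, Ultrafilter.eventually_not]
  | and φ ψ ih1 ih2 =>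
    simp only [ValQF.Holds]
    rw [ih1, ih2, Filter.eventually_and]
  | or φ ψ ih1 ih2 =>
    simp only [ValQF.Holds]
    rw [ih1, ih2, Ultrafilter.eventually_or]

lemma cons_map {X Y : Type*} (f : X → Y) {m : ℕ} (x : X) (e : Fin m → X) :
    (Fin.cons (f x) (fun i => f (e i)) : Fin (m + 1) → Y)
      = fun i => f ((Fin.cons x e : Fin (m + 1) → X) i) := by
  funext i
  refine Fin.cases ?_ (fun i => ?_) i <;> simp

lemma cons_seq {X : Type*} {m : ℕ} (x : ℕ → X) (e : Fin m → ℕ → X) (j : ℕ) :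
    (fun i => (Fin.cons x e : Fin (m + 1) → ℕ → X) i j)
      = (Fin.cons (x j) (fun i => e i j) : Fin (m + 1) → X) := by
  funext i
  refine Fin.cases ?_ (fun i => ?_) i <;> simp

/-- **Łoś' theorem.** -/
theorem ValPrenex.los {a b c : ℕ} (φ : ValPrenex a b c) : ∀ (e : Fin a → ℕ → F.K)
    (r : Fin b → ℕ → F.k) (g : Fin c → ℕ → WithTop F.G),
    φ.Holds (F.ultra U).v (F.ultra U).res (fun i => gK U (e i)) (fun i => gk U (r i))
      (fun i => gT U (g i)) ↔
    ∀ᶠ j in (U : Filter ℕ), φ.Holds F.v F.res (fun i => e i j) (fun i => r i j)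
      (fun i => g i j) := by
  induction φ with
  | qf θ => intro e r g; exact ValQF.los θ e r g
  | exF φ ih =>
    intro e r g
    simp only [ValPrenex.Holds]
    rw [ev_exists]
    constructor
    · rintro ⟨x, hx⟩
      obtain ⟨x, rfl⟩ := gK_surj x
      rw [cons_map (gK U), ih] at hx
      simp only [cons_seq] at hx
      exact ⟨x, hx⟩
    · rintro ⟨x, hx⟩
      refine ⟨gK U x, ?_⟩
      rw [cons_map (gK U), ih]
      simp only [cons_seq]
      exact hx
  | exR φ ih =>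
    intro e r g
    simp only [ValPrenex.Holds]
    rw [ev_exists]
    constructor
    · rintro ⟨x, hx⟩
      obtain ⟨x, rfl⟩ := gk_surj x
      rw [cons_map (gk U), ih] at hx
      simp only [cons_seq] at hx
      exact ⟨x, hx⟩
    · rintro ⟨x, hx⟩
      refine ⟨gk U x, ?_⟩
      rw [cons_map (gk U), ih]
      simp only [cons_seq]
      exact hx
  | exG φ ih =>
    intro e r g
    simp only [ValPrenex.Holds]
    rw [ev_exists]
    constructor
    · rintro ⟨x, hx⟩
      obtain ⟨x, rfl⟩ := gT_surj x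
      rw [cons_map (gT U), ih] at hx
      simp only [cons_seq] at hx
      exact ⟨x, hx⟩
    · rintro ⟨x, hx⟩
      refine ⟨gT U x, ?_⟩
      rw [cons_map (gT U), ih]
      simp only [cons_seq]
      exact hx
  | allF φ ih =>
    intro e r g
    simp only [ValPrenex.Holds]
    rw [ev_forall]
    constructor
    · intro hx x
      have := hx (gK U x)
      rw [cons_map (gK U), ih] at this
      simp only [cons_seq] at this
      exact this
    · intro hx x
      obtain ⟨x, rfl⟩ := gK_surj x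
      rw [cons_map (gK U), ih]
      simp only [cons_seq]
      exact hx x
  | allR φ ih =>
    intro e r g
    simp only [ValPrenex.Holds]
    rw [ev_forall]
    constructor
    · intro hx x
      have := hx (gk U x)
      rw [cons_map (gk U), ih] at this
      simp only [cons_seq] at this
      exact this
    · intro hx x
      obtain ⟨x, rfl⟩ := gk_surj x
      rw [cons_map (gk U), ih]
      simp only [cons_seq]
      exact hx x
  | allG φ ih =>
    intro e r g
    simp only [ValPrenex.Holds]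
    rw [ev_forall]
    constructor
    · intro hx x
      have := hx (gT U x)
      rw [cons_map (gT U), ih] at this
      simp only [cons_seq] at this
      exact this
    · intro hx x
      obtain ⟨x, rfl⟩ := gT_surj x
      rw [cons_map (gT U), ih]
      simp only [cons_seq]
      exact hx x

/-- Elements of `F` as elements of the ultrapower. -/
theorem ValPrenex.los_const {a : ℕ} (φ : ValPrenex a 0 0) (e : Fin a → F.K) :
    φ.Holds (F.ultra U).v (F.ultra U).res (fun i => gK U (fun _ => e i)) Fin.elim0 Fin.elim0 ↔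
      φ.Holds F.v F.res e Fin.elim0 Fin.elim0 := by
  have h := ValPrenex.los (U := U) φ (fun i _ => e i) (fun i => i.elim0) (fun i => i.elim0)
  have e1 : (fun i : Fin 0 => gk (F := F) U (i.elim0)) = Fin.elim0 := by
    funext i; exact i.elim0
  have e2 : (fun i : Fin 0 => gT (F := F) U (i.elim0)) = Fin.elim0 := by
    funext i; exact i.elim0
  rw [e1, e2] at h
  rw [h]
  constructor
  · intro h1
    obtain ⟨j, hj⟩ := h1.exists
    have e3 : (fun i : Fin 0 => (i.elim0 : ℕ → F.k) j) = Fin.elim0 := by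
      funext i; exact i.elim0
    have e4 : (fun i : Fin 0 => (i.elim0 : ℕ → WithTop F.G) j) = Fin.elim0 := by
      funext i; exact i.elim0
    rw [e3, e4] at hj
    exact hj
  · intro h1
    refine Filter.Eventually.of_forall fun j => ?_
    have e3 : (fun i : Fin 0 => (i.elim0 : ℕ → F.k) j) = Fin.elim0 := by
      funext i; exact i.elim0
    have e4 : (fun i : Fin 0 => (i.elim0 : ℕ → WithTop F.G) j) = Fin.elim0 := by
      funext i; exact i.elim0
    rw [e3, e4]
    exact h1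

end

end Pool.Agent.Lib.MP_65f174_lc.AKE
end

section

set_option autoImplicit false

/-!
# The back-and-forth argument, level by level
-/

namespace Pool.Agent.Lib.MP_65f174_lc.AKE

universe u

open Filter

/-! ### Levels of three-sorted prenex formulas -/

/-- Level of a prenex formula: at most `n` blocks, the first of type `b`. -/
inductive VLev : Bool → ℕ → {a b c : ℕ} → ValPrenex a b c → Prop
  | qf (t : Bool) (n : ℕ) {a b c : ℕ} (θ : ValQF a b c) : VLev t n (.qf θ)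
  | exF (n : ℕ) {a b c : ℕ} {φ : ValPrenex (a + 1) b c} : VLev true (n + 1) φ →
      VLev true (n + 1) (.exF φ)
  | exR (n : ℕ) {a b c : ℕ} {φ : ValPrenex a (b + 1) c} : VLev true (n + 1) φ →
      VLev true (n + 1) (.exR φ)
  | exG (n : ℕ) {a b c : ℕ} {φ : ValPrenex a b (c + 1)} : VLev true (n + 1) φ →
      VLev true (n + 1) (.exG φ)
  | allF (n : ℕ) {a b c : ℕ} {φ : ValPrenex (a + 1) b c} : VLev false (n + 1) φ →
      VLev false (n + 1) (.allF φ)
  | allR (n : ℕ) {a b c : ℕ} {φ : ValPrenex a (b + 1) c} : VLev false (n + 1) φ →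
      VLev false (n + 1) (.allR φ)
  | allG (n : ℕ) {a b c : ℕ} {φ : ValPrenex a b (c + 1)} : VLev false (n + 1) φ →
      VLev false (n + 1) (.allG φ)
  | sw (t : Bool) (n : ℕ) {a b c : ℕ} {φ : ValPrenex a b c} : VLev (!t) n φ → VLev t (n + 1) φ

theorem vlev_of_hasPattern (n : ℕ) : ∀ (t : Bool) {a b c : ℕ} (φ : ValPrenex a b c),
    HasPattern (alt t n) φ.word → VLev t n φ := by
  induction n with
  | zero =>
    intro t a b c φ h
    cases φ with
    | qf θ => exact VLev.qf _ _ _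
    | exF φ => simp [alt, HasPattern, ValPrenex.word] at h
    | exR φ => simp [alt, HasPattern, ValPrenex.word] at h
    | exG φ => simp [alt, HasPattern, ValPrenex.word] at h
    | allF φ => simp [alt, HasPattern, ValPrenex.word] at h
    | allR φ => simp [alt, HasPattern, ValPrenex.word] at h
    | allG φ => simp [alt, HasPattern, ValPrenex.word] at h
  | succ n ih =>
    intro t a b c φ h
    induction φ with
    | qf θ => exact VLev.qf _ _ _
    | exF φ ihφ =>
      cases t with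
      | true => exact VLev.exF _ (ihφ (hasPattern_peel h))
      | false => exact VLev.sw _ _ (ih _ _ (hasPattern_switch h))
    | exR φ ihφ =>
      cases t with
      | true => exact VLev.exR _ (ihφ (hasPattern_peel h))
      | false => exact VLev.sw _ _ (ih _ _ (hasPattern_switch h))
    | exG φ ihφ =>
      cases t with
      | true => exact VLev.exG _ (ihφ (hasPattern_peel h))
      | false => exact VLev.sw _ _ (ih _ _ (hasPattern_switch h))
    | allF φ ihφ =>
      cases t with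
      | false => exact VLev.allF _ (ihφ (hasPattern_peel h))
      | true => exact VLev.sw _ _ (ih _ _ (hasPattern_switch h))
    | allR φ ihφ =>
      cases t with
      | false => exact VLev.allR _ (ihφ (hasPattern_peel h))
      | true => exact VLev.sw _ _ (ih _ _ (hasPattern_switch h))
    | allG φ ihφ =>
      cases t with
      | false => exact VLev.allG _ (ihφ (hasPattern_peel h))
      | true => exact VLev.sw _ _ (ih _ _ (hasPattern_switch h))

/-! ### Quantifier-free formulas -/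

section

variable {E F : VF.{u}} {n : ℕ} {G : Subring (E.K × F.K)}

/-- pairs of values of the graph, with infinity -/
def Rt (G : Subring (E.K × F.K)) : Set (WithTop E.G × WithTop F.G) :=
  {r | ∃ p ∈ G, r = (E.v p.1, F.v p.2)}

theorem RingTm.mem_graph {a : ℕ} (t : RingTm a) (p : Fin a → E.K × F.K) (hp : ∀ i, p i ∈ G) :
    (t.eval (fun i => (p i).1), t.eval (fun i => (p i).2)) ∈ G := by
  induction t with
  | var i => exact hp i
  | zero => exact G.zero_mem
  | one => exact G.one_mem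
  | neg t ih => exact G.neg_mem ih
  | add t s iht ihs => exact G.add_mem iht ihs
  | mul t s iht ihs => exact G.mul_mem iht ihs

lemma Dat.Rr_norm (h : Dat n E F G) {r : E.k × F.k} (hr : r ∈ Rr G) :
    ∃ p ∈ G, 0 ≤ E.v p.1 ∧ 0 ≤ F.v p.2 ∧ r = (E.res p.1, F.res p.2) := by
  obtain ⟨p, hp, rfl⟩ := hr
  by_cases h0 : 0 ≤ E.v p.1
  · exact ⟨p, hp, h0, (h.nonneg hp).mp h0, rfl⟩
  · have h1 : ¬ 0 ≤ F.v p.2 := by rwa [← h.nonneg hp]
    have h2 : 0 ≤ E.v (0 : E.K) := by rw [AddValuation.map_zero]; exact le_top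
    have h3 : 0 ≤ F.v (0 : F.K) := by rw [AddValuation.map_zero]; exact le_top
    refine ⟨0, G.zero_mem, h2, h3, ?_⟩
    rw [not_le] at h0 h1
    rw [E.res_out _ h0, F.res_out _ h1]
    change _ = (E.res 0, F.res 0)
    rw [E.res_zero, F.res_zero]

theorem ResTm.mem_graph (h : Dat n E F G) {a b : ℕ} (t : ResTm a b) (p : Fin a → E.K × F.K)
    (hp : ∀ i, p i ∈ G) (r : Fin b → E.k × F.k) (hr : ∀ i, r i ∈ Rr G) :
    (t.eval E.res (fun i => (p i).1) (fun i => (r i).1),
      t.eval F.res (fun i => (p i).2) (fun i => (r i).2)) ∈ Rr G := by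
  induction t with
  | var i => exact hr i
  | zero =>
    refine ⟨0, G.zero_mem, ?_⟩
    change ((0 : E.k), (0 : F.k)) = (E.res 0, F.res 0)
    rw [E.res_zero, F.res_zero]
  | one =>
    refine ⟨1, G.one_mem, ?_⟩
    change ((1 : E.k), (1 : F.k)) = (E.res 1, F.res 1)
    rw [E.res_one, F.res_one]
  | neg t ih =>
    obtain ⟨x, hx, h1⟩ := ih
    rw [Prod.mk.injEq] at h1
    refine ⟨-x, G.neg_mem hx, ?_⟩
    change (-_, -_) = (E.res (-x.1), F.res (-x.2))
    rw [h1.1, h1.2, E.res_neg, F.res_neg]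
  | add t s iht ihs =>
    obtain ⟨x, hx, hx1, hx2, h1⟩ := h.Rr_norm iht
    obtain ⟨y, hy, hy1, hy2, h2⟩ := h.Rr_norm ihs
    rw [Prod.mk.injEq] at h1 h2
    refine ⟨x + y, G.add_mem hx hy, ?_⟩
    change (_ + _, _ + _) = (E.res (x.1 + y.1), F.res (x.2 + y.2))
    rw [h1.1, h1.2, h2.1, h2.2, E.res_add _ _ hx1 hy1, F.res_add _ _ hx2 hy2]
  | mul t s iht ihs =>
    obtain ⟨x, hx, hx1, hx2, h1⟩ := h.Rr_norm iht
    obtain ⟨y, hy, hy1, hy2, h2⟩ := h.Rr_norm ihs
    rw [Prod.mk.injEq] at h1 h2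
    refine ⟨x * y, G.mul_mem hx hy, ?_⟩
    change (_ * _, _ * _) = (E.res (x.1 * y.1), F.res (x.2 * y.2))
    rw [h1.1, h1.2, h2.1, h2.2, E.res_mul _ _ hx1 hy1, F.res_mul _ _ hx2 hy2]
  | res t => exact ⟨_, RingTm.mem_graph t p hp, rfl⟩

lemma v_inv_map (F : VF.{u}) (x : F.K) : (F.v x).map (fun g => -g) = F.v x⁻¹ := by
  by_cases hx : x = 0
  · rw [hx, inv_zero, AddValuation.map_zero]; rfl
  · rw [F.vG_spec hx, F.vG_spec (inv_ne_zero hx), F.vG_inv hx, WithTop.map_coe]

theorem ValTm.mem_graph (h : Dat n E F G) {a c : ℕ} (t : ValTm a c) (p : Fin a → E.K × F.K)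
    (hp : ∀ i, p i ∈ G) (g : Fin c → WithTop E.G × WithTop F.G) (hg : ∀ i, g i ∈ Rt G) :
    (t.eval E.v (fun i => (p i).1) (fun i => (g i).1),
      t.eval F.v (fun i => (p i).2) (fun i => (g i).2)) ∈ Rt G := by
  induction t with
  | var i => exact hg i
  | zero =>
    refine ⟨1, G.one_mem, ?_⟩
    change ((0 : WithTop E.G), (0 : WithTop F.G)) = (E.v 1, F.v 1)
    rw [AddValuation.map_one, AddValuation.map_one]
  | infty =>
    refine ⟨0, G.zero_mem, ?_⟩
    change ((⊤ : WithTop E.G), (⊤ : WithTop F.G)) = (E.v 0, F.v 0)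
    rw [AddValuation.map_zero, AddValuation.map_zero]
  | neg t ih =>
    obtain ⟨x, hx, h1⟩ := ih
    rw [Prod.mk.injEq] at h1
    refine ⟨x⁻¹, h.Ginv x hx, ?_⟩
    change (_, _) = (E.v (x.1)⁻¹, F.v (x.2)⁻¹)
    rw [← v_inv_map, ← v_inv_map, ← h1.1, ← h1.2]
    rfl
  | add t s iht ihs =>
    obtain ⟨x, hx, h1⟩ := iht
    obtain ⟨y, hy, h2⟩ := ihs
    rw [Prod.mk.injEq] at h1 h2
    refine ⟨x * y, G.mul_mem hx hy, ?_⟩
    change (_ + _, _ + _) = (E.v (x.1 * y.1), F.v (x.2 * y.2))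
    rw [h1.1, h1.2, h2.1, h2.2, AddValuation.map_mul, AddValuation.map_mul]
  | val t => exact ⟨_, RingTm.mem_graph t p hp, rfl⟩

theorem ValQF.holds_iff (h : Dat n E F G) {a b c : ℕ} (θ : ValQF a b c)
    (p : Fin a → E.K × F.K) (hp : ∀ i, p i ∈ G) (r : Fin b → E.k × F.k) (hr : ∀ i, r i ∈ Rr G)
    (g : Fin c → WithTop E.G × WithTop F.G) (hg : ∀ i, g i ∈ Rt G) :
    θ.Holds E.v E.res (fun i => (p i).1) (fun i => (r i).1) (fun i => (g i).1) ↔
      θ.Holds F.v F.res (fun i => (p i).2) (fun i => (r i).2) (fun i => (g i).2) := by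
  induction θ with
  | eqF t s =>
    simp only [ValQF.Holds]
    have h1 := h.G0 _ (G.sub_mem (RingTm.mem_graph t p hp) (RingTm.mem_graph s p hp))
    change t.eval _ - s.eval _ = 0 ↔ t.eval _ - s.eval _ = 0 at h1
    rw [sub_eq_zero, sub_eq_zero] at h1
    exact h1
  | eqR t s =>
    simp only [ValQF.Holds]
    exact h.Tr.eq_iff (ResTm.mem_graph h t p hp r hr) (ResTm.mem_graph h s p hp r hr)
  | eqG t s =>
    simp only [ValQF.Holds]
    obtain ⟨x, hx, h1⟩ := ValTm.mem_graph h t p hp g hg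
    obtain ⟨y, hy, h2⟩ := ValTm.mem_graph h s p hp g hg
    rw [Prod.mk.injEq] at h1 h2
    rw [h1.1, h1.2, h2.1, h2.2, le_antisymm_iff, le_antisymm_iff, h.v_le hx hy, h.v_le hy hx]
  | ltG t s =>
    simp only [ValQF.Holds]
    obtain ⟨x, hx, h1⟩ := ValTm.mem_graph h t p hp g hg
    obtain ⟨y, hy, h2⟩ := ValTm.mem_graph h s p hp g hg
    rw [Prod.mk.injEq] at h1 h2
    rw [h1.1, h1.2, h2.1, h2.2, ← not_le, ← not_le, h.v_le hy hx]
  | not φ ih =>
    simp only [ValQF.Holds]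
    rw [ih]
  | and φ ψ ih1 ih2 =>
    simp only [ValQF.Holds]
    rw [ih1, ih2]
  | or φ ψ ih1 ih2 =>
    simp only [ValQF.Holds]
    rw [ih1, ih2]

lemma cons_fst {X Y : Type*} {m : ℕ} (x : X) (y : Y) (p : Fin m → X × Y) :
    (fun i => ((Fin.cons (x, y) p : Fin (m + 1) → X × Y) i).1)
      = (Fin.cons x (fun i => (p i).1) : Fin (m + 1) → X) := by
  funext i
  refine Fin.cases ?_ (fun i => ?_) i <;> simp

lemma cons_snd {X Y : Type*} {m : ℕ} (x : X) (y : Y) (p : Fin m → X × Y) :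
    (fun i => ((Fin.cons (x, y) p : Fin (m + 1) → X × Y) i).2)
      = (Fin.cons y (fun i => (p i).2) : Fin (m + 1) → Y) := by
  funext i
  refine Fin.cases ?_ (fun i => ?_) i <;> simp

lemma cons_all {X : Type*} (P : X → Prop) {m : ℕ} {x : X} (hx : P x) {p : Fin m → X}
    (hp : ∀ i, P (p i)) : ∀ i, P ((Fin.cons x p : Fin (m + 1) → X) i) := by
  intro i
  refine Fin.cases ?_ (fun i => ?_) i
  · simpa using hx
  · simpa using hp i

lemma v_surj (E : VF.{u}) (g : WithTop E.G) : ∃ x, E.v x = g := by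
  induction g with
  | top => exact ⟨0, AddValuation.map_zero _⟩
  | coe g => exact E.surj g

end

/-! ### The back-and-forth argument -/

/-- **Main theorem**, for ultrapowers: partial isomorphisms of level `n` preserve formulas of
level `n`. -/
theorem bf {U : Ultrafilter ℕ} (hU : (U : Filter ℕ) ≤ atTop) {t : Bool} {n a b c : ℕ}
    {φ : ValPrenex a b c} (hφ : VLev t n φ) : ∀ (E₀ F₀ : VF.{u}) (_ : E₀.Hens) (_ : F₀.Hens)
    (_ : CharZero E₀.k) (_ : CharZero F₀.k) (G : Subring ((E₀.ultra U).K × (F₀.ultra U).K))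
    (_ : Dat n (E₀.ultra U) (F₀.ultra U) G)
    (p : Fin a → (E₀.ultra U).K × (F₀.ultra U).K) (_ : ∀ i, p i ∈ G)
    (r : Fin b → (E₀.ultra U).k × (F₀.ultra U).k) (_ : ∀ i, r i ∈ Rr G)
    (g : Fin c → WithTop (E₀.ultra U).G × WithTop (F₀.ultra U).G) (_ : ∀ i, g i ∈ Rt G),
    (t = true → φ.Holds (E₀.ultra U).v (E₀.ultra U).res (fun i => (p i).1) (fun i => (r i).1)
        (fun i => (g i).1) →
      φ.Holds (F₀.ultra U).v (F₀.ultra U).res (fun i => (p i).2) (fun i => (r i).2)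
        (fun i => (g i).2)) ∧
    (t = false → φ.Holds (F₀.ultra U).v (F₀.ultra U).res (fun i => (p i).2) (fun i => (r i).2)
        (fun i => (g i).2) →
      φ.Holds (E₀.ultra U).v (E₀.ultra U).res (fun i => (p i).1) (fun i => (r i).1)
        (fun i => (g i).1)) := by
  induction hφ with
  | qf t n θ =>
    intro E₀ F₀ hE hF hcE hcF G hG p hp r hr g hg
    have := ValQF.holds_iff hG θ p hp r hr g hg
    exact ⟨fun _ h => this.mp h, fun _ h => this.mpr h⟩
  | exF n _ ih =>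
    intro E₀ F₀ hE hF hcE hcF G hG p hp r hr g hg
    refine ⟨fun _ => ?_, fun h => absurd h (by simp)⟩
    rintro ⟨x, hx⟩
    have := ultra_charZero (U := U) (F := E₀) hcE
    obtain ⟨G', h1, h2, y, hy⟩ := hG.extend hU (ultra_hens hE) hF x
    have h3 := (ih E₀ F₀ hE hF hcE hcF G' h2 (Fin.cons (x, y) p)
      (cons_all (fun q => q ∈ G') hy fun i => h1 (hp i))
      r (fun i => by
        obtain ⟨q, hq, hqr⟩ := hr i
        exact ⟨q, h1 hq, hqr⟩)
      g (fun i => by
        obtain ⟨q, hq, hqr⟩ := hg i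
        exact ⟨q, h1 hq, hqr⟩)).1 rfl
    rw [cons_fst, cons_snd] at h3
    exact ⟨y, h3 hx⟩
  | exR n _ ih =>
    intro E₀ F₀ hE hF hcE hcF G hG p hp r hr g hg
    refine ⟨fun _ => ?_, fun h => absurd h (by simp)⟩
    rintro ⟨s, hs⟩
    have := ultra_charZero (U := U) (F := E₀) hcE
    obtain ⟨x, hx0, rfl⟩ := (E₀.ultra U).res_surj s
    obtain ⟨G', h1, h2, y, hy⟩ := hG.extend hU (ultra_hens hE) hF x
    have h3 := (ih E₀ F₀ hE hF hcE hcF G' h2 p (fun i => h1 (hp i))
      (Fin.cons ((E₀.ultra U).res x, (F₀.ultra U).res y) r)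
      (cons_all (fun q => q ∈ Rr G') ⟨(x, y), hy, rfl⟩ fun i => by
        obtain ⟨q, hq, hqr⟩ := hr i
        exact ⟨q, h1 hq, hqr⟩)
      g (fun i => by
        obtain ⟨q, hq, hqr⟩ := hg i
        exact ⟨q, h1 hq, hqr⟩)).1 rfl
    rw [cons_fst, cons_snd] at h3
    exact ⟨(F₀.ultra U).res y, h3 hs⟩
  | exG n _ ih =>
    intro E₀ F₀ hE hF hcE hcF G hG p hp r hr g hg
    refine ⟨fun _ => ?_, fun h => absurd h (by simp)⟩
    rintro ⟨s, hs⟩
    have := ultra_charZero (U := U) (F := E₀) hcE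
    obtain ⟨x, rfl⟩ := v_surj (E₀.ultra U) s
    obtain ⟨G', h1, h2, y, hy⟩ := hG.extend hU (ultra_hens hE) hF x
    have h3 := (ih E₀ F₀ hE hF hcE hcF G' h2 p (fun i => h1 (hp i)) r
      (fun i => by
        obtain ⟨q, hq, hqr⟩ := hr i
        exact ⟨q, h1 hq, hqr⟩)
      (Fin.cons ((E₀.ultra U).v x, (F₀.ultra U).v y) g)
      (cons_all (fun q => q ∈ Rt G') ⟨(x, y), hy, rfl⟩ fun i => by
        obtain ⟨q, hq, hqr⟩ := hg i
        exact ⟨q, h1 hq, hqr⟩)).1 rfl
    rw [cons_fst, cons_snd] at h3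
    exact ⟨(F₀.ultra U).v y, h3 hs⟩
  | allF n _ ih =>
    intro E₀ F₀ hE hF hcE hcF G hG p hp r hr g hg
    refine ⟨fun h => absurd h (by simp), fun _ => ?_⟩
    intro hall x
    have := ultra_charZero (U := U) (F := E₀) hcE
    obtain ⟨G', h1, h2, y, hy⟩ := hG.extend hU (ultra_hens hE) hF x
    have h3 := (ih E₀ F₀ hE hF hcE hcF G' h2 (Fin.cons (x, y) p)
      (cons_all (fun q => q ∈ G') hy fun i => h1 (hp i))
      r (fun i => by
        obtain ⟨q, hq, hqr⟩ := hr i
        exact ⟨q, h1 hq, hqr⟩)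
      g (fun i => by
        obtain ⟨q, hq, hqr⟩ := hg i
        exact ⟨q, h1 hq, hqr⟩)).2 rfl
    rw [cons_fst, cons_snd] at h3
    exact h3 (hall y)
  | allR n _ ih =>
    intro E₀ F₀ hE hF hcE hcF G hG p hp r hr g hg
    refine ⟨fun h => absurd h (by simp), fun _ => ?_⟩
    intro hall s
    have := ultra_charZero (U := U) (F := E₀) hcE
    obtain ⟨x, hx0, rfl⟩ := (E₀.ultra U).res_surj s
    obtain ⟨G', h1, h2, y, hy⟩ := hG.extend hU (ultra_hens hE) hF x
    have h3 := (ih E₀ F₀ hE hF hcE hcF G' h2 p (fun i => h1 (hp i))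
      (Fin.cons ((E₀.ultra U).res x, (F₀.ultra U).res y) r)
      (cons_all (fun q => q ∈ Rr G') ⟨(x, y), hy, rfl⟩ fun i => by
        obtain ⟨q, hq, hqr⟩ := hr i
        exact ⟨q, h1 hq, hqr⟩)
      g (fun i => by
        obtain ⟨q, hq, hqr⟩ := hg i
        exact ⟨q, h1 hq, hqr⟩)).2 rfl
    rw [cons_fst, cons_snd] at h3
    exact h3 (hall _)
  | allG n _ ih =>
    intro E₀ F₀ hE hF hcE hcF G hG p hp r hr g hg
    refine ⟨fun h => absurd h (by simp), fun _ => ?_⟩
    intro hall s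
    have := ultra_charZero (U := U) (F := E₀) hcE
    obtain ⟨x, rfl⟩ := v_surj (E₀.ultra U) s
    obtain ⟨G', h1, h2, y, hy⟩ := hG.extend hU (ultra_hens hE) hF x
    have h3 := (ih E₀ F₀ hE hF hcE hcF G' h2 p (fun i => h1 (hp i)) r
      (fun i => by
        obtain ⟨q, hq, hqr⟩ := hr i
        exact ⟨q, h1 hq, hqr⟩)
      (Fin.cons ((E₀.ultra U).v x, (F₀.ultra U).v y) g)
      (cons_all (fun q => q ∈ Rt G') ⟨(x, y), hy, rfl⟩ fun i => by
        obtain ⟨q, hq, hqr⟩ := hg i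
        exact ⟨q, h1 hq, hqr⟩)).2 rfl
    rw [cons_fst, cons_snd] at h3
    exact h3 (hall _)
  | sw t n _ ih =>
    intro E₀ F₀ hE hF hcE hcF G hG p hp r hr g hg
    have h3 := ih F₀ E₀ hF hE hcF hcE (swapG G) hG.swap (fun i => ((p i).2, (p i).1))
      (fun i => hp i) (fun i => ((r i).2, (r i).1)) (fun i => by
        obtain ⟨q, hq, hqr⟩ := hr i
        refine ⟨(q.2, q.1), hq, ?_⟩
        rw [hqr]) (fun i => ((g i).2, (g i).1)) (fun i => by
        obtain ⟨q, hq, hqr⟩ := hg i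
        refine ⟨(q.2, q.1), hq, ?_⟩
        rw [hqr])
    constructor
    · rintro rfl
      exact h3.2 rfl
    · rintro rfl
      exact h3.1 rfl

end Pool.Agent.Lib.MP_65f174_lc.AKE
end

section

set_option autoImplicit false

/-!
# Initial data
-/

namespace Pool.Agent.Lib.MP_65f174_lc.AKE

universe u

open Filter

/-! ### Patterns -/

theorem pattern_eq (n : ℕ) : (n % 2 = 1 → pattern n = alt true n) ∧
    (n % 2 = 0 → pattern n = alt false n) := by
  induction n with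
  | zero => exact ⟨fun h => absurd h (by simp), fun _ => rfl⟩
  | succ n ih =>
    constructor
    · intro h
      have h1 : n % 2 = 0 := by omega
      simp only [pattern, alt, h1, if_true, ih.2 h1, Bool.not_true]
    · intro h
      have h1 : n % 2 = 1 := by omega
      have h2 : ¬ n % 2 = 0 := by omega
      simp only [pattern, alt, h2, if_false, ih.1 h1, Bool.not_false]

/-! ### From inclusions of theories to preserved formulas -/

section

variable {S : Syn} {M N : Type u} {n : ℕ}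

theorem tn_range {A : Sem S M} {B : Sem S N} {m : ℕ} (e : Fin m → M) (e' : Fin m → N)
    (h : ∀ φ : Prenex S.Fm m, Lev true n φ → φ.Holds A.H e → φ.Holds B.H e') :
    Tn n A B (Set.range fun i => (e i, e' i)) := by
  intro k φ hφ p hp h1
  choose ρ hρ using hp
  have h2 := h (φ.ren S m ρ) (hφ.ren _ _)
  rw [Prenex.holds_ren, Prenex.holds_ren] at h2
  have e1 : (fun i => (p i).1) = e ∘ ρ := by
    funext i; rw [← hρ i]; rfl
  have e2 : (fun i => (p i).2) = e' ∘ ρ := by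
    funext i; rw [← hρ i]; rfl
  rw [e2]
  rw [e1] at h1
  exact h2 h1

/-- constant germs -/
def cg (U : Ultrafilter ℕ) (x : M) : Gm U M := ((fun _ => x : ℕ → M) : Gm U M)

theorem los_const {U : Ultrafilter ℕ} [Nonempty M] {A₀ : Sem S M} {A : Sem S (Gm U M)}
    (hA : IsUlt A₀ A) {m : ℕ} (φ : Prenex S.Fm m) (e : Fin m → M) :
    φ.Holds A.H (fun i => cg U (e i)) ↔ φ.Holds A₀.H e := by
  have h := los hA φ (fun i _ => e i)
  unfold cg
  rw [h]
  exact Filter.eventually_const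

theorem tn_odd {U : Ultrafilter ℕ} [Nonempty M] [Nonempty N] {A₀ : Sem S M}
    {A : Sem S (Gm U M)} {B₀ : Sem S N} {B : Sem S (Gm U N)} (hA : IsUlt A₀ A)
    (hB : IsUlt B₀ B) (hn : n % 2 = 1) {m : ℕ} {e : Fin m → M} {e' : Fin m → N}
    (h : ∀ φ : Prenex S.Fm m, HasPattern (pattern n) φ.word → φ.Holds A₀.H e →
      φ.Holds B₀.H e') :
    Tn n A B (Set.range fun i => (cg U (e i), cg U (e' i))) := by
  refine tn_range _ _ fun φ hφ h1 => ?_
  rw [los_const hA] at h1
  rw [los_const hB]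
  refine h φ ?_ h1
  rw [(pattern_eq n).1 hn]
  exact hasPattern_of_lev hφ

theorem tn_even {U : Ultrafilter ℕ} [Nonempty M] [Nonempty N] {A₀ : Sem S M}
    {A : Sem S (Gm U M)} {B₀ : Sem S N} {B : Sem S (Gm U N)} (hA : IsUlt A₀ A)
    (hB : IsUlt B₀ B) (hn : n % 2 = 0) {m : ℕ} {e : Fin m → M} {e' : Fin m → N}
    (h : ∀ φ : Prenex S.Fm m, HasPattern (pattern n) φ.word → φ.Holds A₀.H e →
      φ.Holds B₀.H e') :
    Tn n B A (Set.range fun i => (cg U (e' i), cg U (e i))) := by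
  refine tn_range _ _ fun φ hφ h1 => ?_
  rw [los_const hB] at h1
  rw [los_const hA]
  by_contra h2
  have h3 := h (φ.neg S) (by
    rw [(pattern_eq n).2 hn]
    exact hasPattern_of_lev hφ.neg) ((Prenex.holds_neg A₀ φ e).mpr h2)
  exact (Prenex.holds_neg B₀ φ e').mp h3 h1

end

/-! ### Rational numbers and integer multiples -/

section

variable {U : Ultrafilter ℕ} {E F₀ : VF.{u}} {n : ℕ}

lemma tn_rat (hU : (U : Filter ℕ) ≤ atTop) [CharZero E.k] [CharZero (F₀.ultra U).k]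
    (h : Tn (n + 1) (ringSem E.k) (ringSem (F₀.ultra U).k) ∅) :
    Tn (n + 1) (ringSem E.k) (ringSem (F₀.ultra U).k)
      (Set.range fun q : ℚ => ((q : E.k), (q : (F₀.ultra U).k))) := by
  obtain ⟨R', _, _, h3, h4⟩ := exists_extend hU (S := ringSyn) (n := n) (M := E.k)
    (N₀ := F₀.k) (A := ringSem E.k) (B₀ := ringSem F₀.k) (B := ringSem (F₀.ultra U).k)
    isUlt_ring Set.countable_empty h (X := Set.range fun q : ℚ => (q : E.k))
    (Set.countable_range _)
  change Set (E.k × (F₀.ultra U).k) at R'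
  have h3' : Tn (n + 1) (ringSem E.k) (ringSem (F₀.ultra U).k) R' := h3
  have h5 : ∀ q : ℚ, ∃ y : (F₀.ultra U).k, ((q : E.k), y) ∈ R' := fun q => h4 _ ⟨q, rfl⟩
  choose f hf using h5
  let φ : ℚ →+* (F₀.ultra U).k :=
    { toFun := f
      map_one' := (h3'.ring_one (hf 1)).mp Rat.cast_one
      map_mul' := fun x y => ((h3'.ring_mul (hf x) (hf y) (hf (x * y))).mp
        (Rat.cast_mul x y).symm).symm
      map_zero' := (h3'.ring_zero (hf 0)).mp Rat.cast_zero
      map_add' := fun x y => ((h3'.ring_add (hf x) (hf y) (hf (x + y))).mp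
        (Rat.cast_add x y).symm).symm }
  have h6 : ∀ q, f q = (q : (F₀.ultra U).k) := fun q => eq_ratCast φ q
  refine Tn.mono h3' ?_
  rintro _ ⟨q, rfl⟩
  have := hf q
  rw [h6] at this
  exact this

lemma tn_zero (hU : (U : Filter ℕ) ≤ atTop)
    (h : Tn (n + 1) (oagSem E.G) (oagSem (F₀.ultra U).G) ∅) :
    Tn (n + 1) (oagSem E.G) (oagSem (F₀.ultra U).G) {(0, 0)} := by
  obtain ⟨R', _, _, h3, h4⟩ := exists_extend hU (S := oagSyn) (n := n) (M := E.G)
    (N₀ := F₀.G) (A := oagSem E.G) (B₀ := oagSem F₀.G) (B := oagSem (F₀.ultra U).G)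
    isUlt_oag Set.countable_empty h (X := {0}) (Set.countable_singleton _)
  change Set (E.G × (F₀.ultra U).G) at R'
  have h3' : Tn (n + 1) (oagSem E.G) (oagSem (F₀.ultra U).G) R' := h3
  obtain ⟨y, hy⟩ : ∃ y : (F₀.ultra U).G, ((0 : E.G), y) ∈ R' := h4 0 rfl
  have h5 : y = 0 := (h3'.oag_zero hy).mp rfl
  rw [h5] at hy
  refine Tn.mono h3' ?_
  rintro _ rfl
  exact hy

lemma tn_zmul (hU : (U : Filter ℕ) ≤ atTop) {g : E.G} {g' : (F₀.ultra U).G}
    (h : Tn (n + 1) (oagSem E.G) (oagSem (F₀.ultra U).G) {(g, g')}) :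
    Tn (n + 1) (oagSem E.G) (oagSem (F₀.ultra U).G)
      (Set.range fun m : ℤ => (m • g, m • g')) := by
  obtain ⟨R', h2, _, h3, h4⟩ := exists_extend hU (S := oagSyn) (n := n) (M := E.G)
    (N₀ := F₀.G) (A := oagSem E.G) (B₀ := oagSem F₀.G) (B := oagSem (F₀.ultra U).G)
    isUlt_oag (Set.countable_singleton _) h (X := Set.range fun m : ℤ => m • g)
    (Set.countable_range _)
  change Set (E.G × (F₀.ultra U).G) at R'
  have h3' : Tn (n + 1) (oagSem E.G) (oagSem (F₀.ultra U).G) R' := h3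
  have h5 : ∀ m : ℤ, ∃ y : (F₀.ultra U).G, (m • g, y) ∈ R' := fun q => h4 _ ⟨q, rfl⟩
  choose f hf using h5
  let φ : ℤ →+ (F₀.ultra U).G :=
    { toFun := f
      map_zero' := (h3'.oag_zero (hf 0)).mp (zero_smul ℤ g)
      map_add' := fun x y => ((h3'.oag_add (hf x) (hf y) (hf (x + y))).mp
        (add_smul x y g).symm).symm }
  have h6 : f 1 = g' := by
    refine (h3'.eq_iff (hf 1) (h2 rfl)).mp ?_
    exact one_smul ℤ g
  have h7 : ∀ m, f m = m • g' := by
    intro m
    have h8 : φ m = m • φ 1 := by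
      rw [← map_zsmul, smul_eq_mul, mul_one]
    change f m = m • f 1 at h8
    rw [h8, h6]
  refine Tn.mono h3' ?_
  rintro _ ⟨q, rfl⟩
  have := hf q
  rw [h7] at this
  exact this

/-- Initial data. -/
theorem dat_init (hU : (U : Filter ℕ) ≤ atTop) [CharZero E.k] [CharZero (F₀.ultra U).k]
    (hr : Tn (n + 1) (ringSem E.k) (ringSem (F₀.ultra U).k) ∅) {g : E.G} {g' : (F₀.ultra U).G}
    (hv : Tn (n + 1) (oagSem E.G) (oagSem (F₀.ultra U).G) {(g, g')})
    (G : Subring (E.K × (F₀.ultra U).K)) (hctb : (G : Set (E.K × (F₀.ultra U).K)).Countable)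
    (hG0 : ∀ p ∈ G, p.1 = 0 ↔ p.2 = 0) (hGinv : ∀ p ∈ G, p⁻¹ ∈ G)
    (hres : ∀ p ∈ G, ∃ q : ℚ, E.res p.1 = q ∧ (F₀.ultra U).res p.2 = q)
    (hval : ∀ p ∈ G, p.1 ≠ 0 → ∃ m : ℤ, E.vG p.1 = m • g ∧ (F₀.ultra U).vG p.2 = m • g')
    (hpure : ∀ k : ℕ, k ≠ 0 → ∀ (δ : E.G) (m : ℤ), m • g = k • δ → ∃ j : ℤ, δ = j • g)
    (hex : ∀ j : ℤ, ∃ p ∈ G, p.1 ≠ 0 ∧ E.vG p.1 = j • g) :
    Dat (n + 1) E (F₀.ultra U) G := by
  refine ⟨hctb, hG0, hGinv, ?_, ?_, ?_⟩
  · refine Tn.mono (tn_rat hU hr) ?_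
    rintro _ ⟨p, hp, rfl⟩
    obtain ⟨q, h1, h2⟩ := hres p hp
    refine ⟨q, ?_⟩
    rw [h1, h2]
  · refine Tn.mono (tn_zmul hU hv) ?_
    rintro _ ⟨p, hp, hp0, rfl⟩
    obtain ⟨q, h1, h2⟩ := hval p hp hp0
    refine ⟨q, ?_⟩
    rw [h1, h2]
  · intro _ p hp hp0 k hk δ hδ
    obtain ⟨m, h1, _⟩ := hval p hp hp0
    obtain ⟨j, hj⟩ := hpure k hk δ m (by rw [← h1, hδ])
    rw [hj]
    exact hex j

end

/-! ### Residues and values of rational numbers -/

section

variable (E : VF.{u}) [CharZero E.k]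

lemma res_intCast (m : ℤ) : 0 ≤ E.v (m : E.K) ∧ E.res (m : E.K) = m := by
  obtain ⟨k, rfl | rfl⟩ := m.eq_nat_or_neg
  · simp only [Int.cast_natCast]
    exact ⟨E.v_natCast_nonneg k, E.res_natCast k⟩
  · simp only [Int.cast_neg, Int.cast_natCast]
    rw [AddValuation.map_neg, E.res_neg, E.res_natCast]
    exact ⟨E.v_natCast_nonneg k, rfl⟩

lemma res_ratCast (q : ℚ) : 0 ≤ E.v (q : E.K) ∧ E.res (q : E.K) = q := by
  have hden : E.v (q.den : E.K) = 0 := E.v_natCast q.den_ne_zero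
  have hinv : E.v ((q.den : E.K))⁻¹ = 0 := by rw [E.v_inv, hden]; simp
  obtain ⟨h1, h2⟩ := res_intCast E q.num
  rw [Rat.cast_def q, Rat.cast_def q, div_eq_mul_inv, div_eq_mul_inv]
  constructor
  · exact VF.v_mul_nonneg h1 hinv.ge
  · rw [E.res_mul _ _ h1 hinv.ge, h2, E.res_inv hden, E.res_natCast]

lemma v_ratCast {q : ℚ} (hq : q ≠ 0) : E.v (q : E.K) = 0 := by
  obtain ⟨h1, h2⟩ := res_ratCast E q
  refine E.v_eq_zero_of_res h1 ?_
  rw [h2]
  exact Rat.cast_ne_zero.mpr hq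

end

end Pool.Agent.Lib.MP_65f174_lc.AKE
end

section

set_option autoImplicit false

/-!
# Initial graphs
-/

namespace Pool.Agent.Lib.MP_65f174_lc.AKE

universe u

open Filter Polynomial

/-! ### The graph of the rational numbers -/

section

variable {U : Ultrafilter ℕ} {E F₀ : VF.{u}} {n : ℕ}

theorem dat_rat (hU : (U : Filter ℕ) ≤ atTop) (hE : CharZero E.k)
    (hF : CharZero (F₀.ultra U).k)
    (hr : Tn (n + 1) (ringSem E.k) (ringSem (F₀.ultra U).k) ∅)
    (hv : Tn (n + 1) (oagSem E.G) (oagSem (F₀.ultra U).G) ∅) :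
    ∃ G, Dat (n + 1) E (F₀.ultra U) G := by
  have hE1 := charZero_field E
  have hF1 := charZero_field (F₀.ultra U)
  let j : ℚ →+* E.K × (F₀.ultra U).K := (Rat.castHom E.K).prod (Rat.castHom (F₀.ultra U).K)
  have hj : ∀ q : ℚ, j q = ((q : E.K), (q : (F₀.ultra U).K)) := fun q => rfl
  refine ⟨j.range, dat_init hU hr (g := 0) (g' := 0) (tn_zero hU hv) j.range ?_ ?_ ?_ ?_ ?_ ?_
    ?_⟩
  · exact Set.countable_range j
  · rintro _ ⟨q, rfl⟩
    rw [hj]
    change (q : E.K) = 0 ↔ (q : (F₀.ultra U).K) = 0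
    rw [Rat.cast_eq_zero, Rat.cast_eq_zero]
  · rintro _ ⟨q, rfl⟩
    refine ⟨q⁻¹, ?_⟩
    rw [hj, hj, Rat.cast_inv, Rat.cast_inv]
    rfl
  · rintro _ ⟨q, rfl⟩
    exact ⟨q, (res_ratCast E q).2, (res_ratCast (F₀.ultra U) q).2⟩
  · rintro _ ⟨q, rfl⟩ hq
    rw [hj] at hq ⊢
    change (q : E.K) ≠ 0 at hq
    have hq0 : q ≠ 0 := Rat.cast_ne_zero.mp hq
    have hqF : (q : (F₀.ultra U).K) ≠ 0 := Rat.cast_ne_zero.mpr hq0
    refine ⟨0, ?_, ?_⟩
    · rw [smul_zero]
      exact (E.v_zero_iff hq).mp (v_ratCast E hq0)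
    · rw [smul_zero]
      exact ((F₀.ultra U).v_zero_iff hqF).mp (v_ratCast _ hq0)
  · intro k hk δ m h
    rw [smul_zero] at h
    refine ⟨0, ?_⟩
    rw [smul_zero]
    exact (smul_eq_zero.mp h.symm).resolve_left hk
  · intro m
    refine ⟨1, j.range.one_mem, one_ne_zero, ?_⟩
    rw [smul_zero]
    exact E.vG_one

end

/-! ### The graph of a field of rational functions -/

section

variable (V : VF.{u}) [CharZero V.k] [CharZero V.K]

/-- evaluation of rational polynomials -/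
noncomputable def evQ (π : V.K) : ℚ[X] →+* V.K := eval₂RingHom (Rat.castHom V.K) π

variable {V}

lemma evQ_nonneg {π : V.K} (hπ : 0 < V.v π) (s : ℚ[X]) : 0 ≤ V.v (evQ V π s) := by
  induction s using Polynomial.induction_on' with
  | add p q hp hq => rw [map_add]; exact AddValuation.map_le_add _ hp hq
  | monomial i a =>
    unfold evQ
    rw [coe_eval₂RingHom, eval₂_monomial]
    exact VF.v_mul_nonneg (res_ratCast V a).1 (VF.v_pow_nonneg hπ.le i)

lemma evQ_divX (π : V.K) (f : ℚ[X]) :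
    evQ V π f = evQ V π (divX f) * π + ((f.coeff 0 : ℚ) : V.K) := by
  conv_lhs => rw [← divX_mul_X_add f]
  unfold evQ
  rw [map_add, map_mul]
  simp

end

lemma poly_lead (d : ℕ) : ∀ f : ℚ[X], f ≠ 0 → f.natDegree ≤ d → ∃ (m : ℕ) (q : ℚ), q ≠ 0 ∧
    ∀ (V : VF.{u}) (_ : CharZero V.k) (_ : CharZero V.K) (π : V.K), 0 < V.v π →
      V.sim (evQ V π f) ((q : V.K) * π ^ m) := by
  have hcase : ∀ f : ℚ[X], f.coeff 0 ≠ 0 → ∃ (m : ℕ) (q : ℚ), q ≠ 0 ∧
      ∀ (V : VF.{u}) (_ : CharZero V.k) (_ : CharZero V.K) (π : V.K), 0 < V.v π →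
        V.sim (evQ V π f) ((q : V.K) * π ^ m) := by
    intro f hf
    refine ⟨0, f.coeff 0, hf, fun V _ _ π hπ => ?_⟩
    rw [pow_zero, mul_one]
    right
    rw [v_ratCast V hf, evQ_divX, add_sub_cancel_right, AddValuation.map_mul, add_comm]
    exact add_pos_of_pos_of_nonneg hπ (evQ_nonneg hπ _)
  induction d with
  | zero =>
    intro f hf hd
    refine hcase f ?_
    intro h0
    rw [eq_C_of_natDegree_le_zero hd, h0, map_zero] at hf
    exact hf rfl
  | succ d ih =>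
    intro f hf hd
    by_cases h0 : f.coeff 0 = 0
    · have h1 : divX f ≠ 0 := by
        intro h1
        apply hf
        rw [← divX_mul_X_add f, h1, h0]
        simp
      obtain ⟨m, q, hq, h2⟩ := ih (divX f) h1 (by
        rw [natDegree_divX_eq_natDegree_tsub_one]; omega)
      refine ⟨m + 1, q, hq, fun V hV hV' π hπ => ?_⟩
      rw [evQ_divX, h0, Rat.cast_zero, add_zero, pow_succ, ← mul_assoc]
      exact VF.sim_mul (h2 V hV hV' π hπ) (VF.sim_refl _)
    · exact hcase f h0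

section

variable {V : VF.{u}}

lemma VF.vG_pow {x : V.K} (hx : x ≠ 0) (m : ℕ) : V.vG (x ^ m) = m • V.vG x := by
  induction m with
  | zero => rw [pow_zero, zero_smul, V.vG_one]
  | succ m ih => rw [pow_succ, V.vG_mul (pow_ne_zero m hx) hx, ih, succ_nsmul]

lemma VF.vG_zpow {x : V.K} (hx : x ≠ 0) (m : ℤ) : V.vG (x ^ m) = m • V.vG x := by
  obtain ⟨k, rfl | rfl⟩ := m.eq_nat_or_neg
  · rw [zpow_natCast, natCast_zsmul, VF.vG_pow hx]
  · rw [zpow_neg, zpow_natCast, V.vG_inv (pow_ne_zero k hx), VF.vG_pow hx, neg_smul,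
      natCast_zsmul]

variable [CharZero V.k] [CharZero V.K]

lemma evQ_inj {π : V.K} (hπ : 0 < V.v π) (h0 : π ≠ 0) : Function.Injective (evQ V π) := by
  rw [injective_iff_map_eq_zero]
  intro f hf
  by_contra hne
  obtain ⟨m, q, hq, h⟩ := poly_lead f.natDegree f hne le_rfl
  have := h V inferInstance inferInstance π hπ
  rw [hf, VF.sim_zero_left] at this
  rcases mul_eq_zero.mp this with h1 | h1
  · exact hq (Rat.cast_eq_zero.mp h1)
  · exact pow_ne_zero m h0 h1

/-- evaluation of rational functions -/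
noncomputable def evR {π : V.K} (hπ : 0 < V.v π) (h0 : π ≠ 0) : FractionRing ℚ[X] →+* V.K :=
  IsFractionRing.lift (evQ_inj hπ h0)

lemma evR_div {π : V.K} (hπ : 0 < V.v π) (h0 : π ≠ 0) (f h : ℚ[X]) :
    evR hπ h0 (algebraMap ℚ[X] (FractionRing ℚ[X]) f / algebraMap ℚ[X] (FractionRing ℚ[X]) h)
      = evQ V π f / evQ V π h := by
  unfold evR
  rw [map_div₀, IsFractionRing.lift_algebraMap, IsFractionRing.lift_algebraMap]

lemma frac_lead_one {π : V.K} (hπ : 0 < V.v π) (h0 : π ≠ 0) (f h : ℚ[X]) {m m' : ℕ} {q q' : ℚ}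
    (hf : V.sim (evQ V π f) ((q : V.K) * π ^ m)) (hh : V.sim (evQ V π h) ((q' : V.K) * π ^ m')) :
    V.sim (evR hπ h0 (algebraMap ℚ[X] (FractionRing ℚ[X]) f /
      algebraMap ℚ[X] (FractionRing ℚ[X]) h))
      (((q / q' : ℚ) : V.K) * π ^ ((m : ℤ) - (m' : ℤ))) := by
  rw [evR_div]
  have e : ((q / q' : ℚ) : V.K) * π ^ ((m : ℤ) - (m' : ℤ))
      = ((q : V.K) * π ^ m) / ((q' : V.K) * π ^ m') := by
    rw [zpow_sub₀ h0, zpow_natCast, zpow_natCast, Rat.cast_div, mul_div_mul_comm]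
  rw [e]
  exact VF.sim_div hf hh

lemma vG_lead {π x : V.K} (h0 : π ≠ 0) {q : ℚ} (hq : q ≠ 0) {m : ℤ}
    (h : V.sim x ((q : V.K) * π ^ m)) : x ≠ 0 ∧ V.vG x = m • V.vG π := by
  have hq' : (q : V.K) ≠ 0 := Rat.cast_ne_zero.mpr hq
  have hne : (q : V.K) * π ^ m ≠ 0 := mul_ne_zero hq' (zpow_ne_zero m h0)
  refine ⟨VF.sim_ne_zero h hne, ?_⟩
  have h1 : V.vG x = V.vG ((q : V.K) * π ^ m) := by
    unfold VF.vG; rw [VF.sim_val h]
  rw [h1, V.vG_mul hq' (zpow_ne_zero m h0), VF.vG_zpow h0,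
    (V.v_zero_iff hq').mp (v_ratCast V hq), zero_add]

lemma res_lead {π x : V.K} (hπ : 0 < V.vG π) (h0 : π ≠ 0) {q : ℚ} (hq : q ≠ 0) {m : ℤ}
    (h : V.sim x ((q : V.K) * π ^ m)) :
    (m = 0 → V.res x = q) ∧ (m ≠ 0 → V.res x = 0) := by
  obtain ⟨hx, hv⟩ := vG_lead h0 hq h
  constructor
  · rintro rfl
    rw [zpow_zero, mul_one] at h
    rw [VF.res_of_sim (res_ratCast V q).1 h, (res_ratCast V q).2]
  · intro hm
    rcases lt_or_gt_of_ne hm with hneg | hpos
    · refine V.res_out _ ?_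
      rw [V.vG_spec hx, hv, ← WithTop.coe_zero, WithTop.coe_lt_coe]
      have h1 := zsmul_pos hπ (neg_pos.mpr hneg)
      rw [neg_smul] at h1
      exact neg_pos.mp h1
    · have h1 : 0 < V.v x := by
        rw [V.vG_spec hx, hv, ← WithTop.coe_zero, WithTop.coe_lt_coe]
        exact zsmul_pos hπ hpos
      exact (V.res_zero_iff x h1.le).mpr h1

end

section

variable {U : Ultrafilter ℕ} {E F₀ : VF.{u}} {n : ℕ}

theorem dat_unif (hU : (U : Filter ℕ) ≤ atTop) (hE : CharZero E.k)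
    (hF : CharZero (F₀.ultra U).k) {π : E.K} {π' : (F₀.ultra U).K} (h0 : π ≠ 0) (h0' : π' ≠ 0)
    (hpos : 0 < E.vG π) (hpos' : 0 < (F₀.ultra U).vG π')
    (hmin : ∀ δ : E.G, 0 < δ → E.vG π ≤ δ)
    (hr : Tn (n + 1) (ringSem E.k) (ringSem (F₀.ultra U).k) ∅)
    (hv : Tn (n + 1) (oagSem E.G) (oagSem (F₀.ultra U).G) {(E.vG π, (F₀.ultra U).vG π')}) :
    ∃ G, Dat (n + 1) E (F₀.ultra U) G ∧ (π, π') ∈ G := by
  have hE1 := charZero_field E
  have hF1 := charZero_field (F₀.ultra U)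
  have hπ : 0 < E.v π := by
    rw [E.vG_spec h0, ← WithTop.coe_zero, WithTop.coe_lt_coe]; exact hpos
  have hπ' : 0 < (F₀.ultra U).v π' := by
    rw [(F₀.ultra U).vG_spec h0', ← WithTop.coe_zero, WithTop.coe_lt_coe]; exact hpos'
  let j : FractionRing ℚ[X] →+* E.K × (F₀.ultra U).K := (evR hπ h0).prod (evR hπ' h0')
  have hj : ∀ z, j z = (evR hπ h0 z, evR hπ' h0' z) := fun z => rfl
  have hlead : ∀ z : FractionRing ℚ[X], z ≠ 0 → ∃ (m : ℤ) (q : ℚ), q ≠ 0 ∧
      E.sim (evR hπ h0 z) ((q : E.K) * π ^ m) ∧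
      (F₀.ultra U).sim (evR hπ' h0' z) ((q : (F₀.ultra U).K) * π' ^ m) := by
    intro z hz
    obtain ⟨f, h, hh, rfl⟩ := IsFractionRing.div_surjective (A := ℚ[X]) z
    have hh0 : h ≠ 0 := nonZeroDivisors.ne_zero hh
    have hf0 : f ≠ 0 := by
      rintro rfl
      rw [map_zero, zero_div] at hz
      exact hz rfl
    obtain ⟨m, q, hq, h1⟩ := poly_lead.{u} f.natDegree f hf0 le_rfl
    obtain ⟨m', q', hq', h2⟩ := poly_lead.{u} h.natDegree h hh0 le_rfl
    exact ⟨(m : ℤ) - m', q / q', div_ne_zero hq hq',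
      frac_lead_one hπ h0 f h (h1 E hE hE1 π hπ) (h2 E hE hE1 π hπ),
      frac_lead_one hπ' h0' f h (h1 _ hF hF1 π' hπ') (h2 _ hF hF1 π' hπ')⟩
  have hjX : j (algebraMap ℚ[X] (FractionRing ℚ[X]) X) = (π, π') := by
    rw [hj]
    have e1 : evR hπ h0 (algebraMap ℚ[X] (FractionRing ℚ[X]) X) = π := by
      unfold evR
      rw [IsFractionRing.lift_algebraMap]
      unfold evQ
      simp
    have e2 : evR hπ' h0' (algebraMap ℚ[X] (FractionRing ℚ[X]) X) = π' := by
      unfold evR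
      rw [IsFractionRing.lift_algebraMap]
      unfold evQ
      simp
    rw [e1, e2]
  have hpow : ∀ m : ℤ, (π ^ m, π' ^ m) ∈ j.range := by
    intro m
    refine ⟨(algebraMap ℚ[X] (FractionRing ℚ[X]) X) ^ m, ?_⟩
    have e3 : j ((algebraMap ℚ[X] (FractionRing ℚ[X]) X) ^ m)
        = (evR hπ h0 ((algebraMap ℚ[X] (FractionRing ℚ[X]) X) ^ m),
          evR hπ' h0' ((algebraMap ℚ[X] (FractionRing ℚ[X]) X) ^ m)) := rfl
    rw [hj] at hjX
    rw [e3, map_zpow₀, map_zpow₀, (Prod.mk.inj hjX).1, (Prod.mk.inj hjX).2]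
  refine ⟨j.range, dat_init hU hr hv j.range ?_ ?_ ?_ ?_ ?_ ?_ ?_, ⟨_, hjX⟩⟩
  · have : Countable (FractionRing ℚ[X]) := by
      have h1 : Countable ℚ[X] := Cardinal.mk_le_aleph0_iff.mp
        (Polynomial.cardinalMk_le_max.trans (by simp))
      refine Function.Surjective.countable
        (f := fun p : ℚ[X] × ℚ[X] => algebraMap ℚ[X] (FractionRing ℚ[X]) p.1 /
          algebraMap ℚ[X] (FractionRing ℚ[X]) p.2) ?_
      intro z
      obtain ⟨f, h, _, rfl⟩ := IsFractionRing.div_surjective (A := ℚ[X]) z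
      exact ⟨(f, h), rfl⟩
    exact Set.countable_range j
  · rintro _ ⟨z, rfl⟩
    rw [hj]
    change evR hπ h0 z = 0 ↔ evR hπ' h0' z = 0
    rw [map_eq_zero, map_eq_zero]
  · rintro _ ⟨z, rfl⟩
    refine ⟨z⁻¹, ?_⟩
    rw [hj, hj, map_inv₀, map_inv₀]
    rfl
  · rintro _ ⟨z, rfl⟩
    rw [hj]
    change ∃ q : ℚ, E.res (evR hπ h0 z) = q ∧ (F₀.ultra U).res (evR hπ' h0' z) = q
    by_cases hz : z = 0
    · refine ⟨0, ?_, ?_⟩
      · rw [hz, map_zero, E.res_zero, Rat.cast_zero]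
      · rw [hz, map_zero, VF.res_zero, Rat.cast_zero]
    · obtain ⟨m, q, hq, h1, h2⟩ := hlead z hz
      have r1 := res_lead hpos h0 hq h1
      have r2 := res_lead hpos' h0' hq h2
      by_cases hm : m = 0
      · exact ⟨q, r1.1 hm, r2.1 hm⟩
      · refine ⟨0, ?_, ?_⟩
        · rw [r1.2 hm, Rat.cast_zero]
        · rw [r2.2 hm, Rat.cast_zero]
  · rintro _ ⟨z, rfl⟩ hz
    rw [hj] at hz ⊢
    change evR hπ h0 z ≠ 0 at hz
    have hz0 : z ≠ 0 := by
      rintro rfl
      rw [map_zero] at hz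
      exact hz rfl
    obtain ⟨m, q, hq, h1, h2⟩ := hlead z hz0
    exact ⟨m, (vG_lead h0 hq h1).2, (vG_lead h0' hq h2).2⟩
  · intro k hk δ m h
    obtain ⟨g, hg⟩ : ∃ g, g = E.vG π := ⟨_, rfl⟩
    rw [← hg] at h hpos hmin ⊢
    have hk' : (0 : ℤ) < k := by exact_mod_cast Nat.pos_of_ne_zero hk
    obtain ⟨ε, hε⟩ : ∃ ε, ε = δ - (m / k) • g := ⟨_, rfl⟩
    have h1 : (k : ℤ) • ε = (m % k) • g := by
      rw [hε, smul_sub, natCast_zsmul, ← h, smul_smul, ← sub_smul]
      congr 1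
      have := Int.emod_add_mul_ediv m k
      linarith
    refine ⟨m / k, ?_⟩
    have h2 : ε = 0 := by
      rcases lt_trichotomy (m % k) 0 with h3 | h3 | h3
      · exact absurd h3 (not_lt.mpr (Int.emod_nonneg m hk'.ne'))
      · rw [h3, zero_smul] at h1
        exact (smul_eq_zero.mp h1).resolve_left hk'.ne'
      · exfalso
        have h4 : 0 < (k : ℤ) • ε := by rw [h1]; exact zsmul_pos hpos h3
        have h5 : 0 < ε := by
          by_contra h6
          rw [not_lt] at h6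
          have h7 : (k : ℤ) • ε ≤ 0 := by
            rw [natCast_zsmul]
            exact nsmul_nonpos h6 k
          exact absurd h4 (not_lt.mpr h7)
        have h6 := hmin ε h5
        have h7 : (k : ℤ) • g ≤ (k : ℤ) • ε := zsmul_le_zsmul_right hk'.le h6
        rw [h1] at h7
        have h8 : (m % k) • g < (k : ℤ) • g :=
          zsmul_lt_zsmul_left hpos (Int.emod_lt_of_pos m hk')
        exact absurd h7 (not_le.mpr h8)
    rw [h2] at hε
    exact (sub_eq_zero.mp hε.symm)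
  · intro m
    refine ⟨(π ^ m, π' ^ m), hpow m, zpow_ne_zero m h0, ?_⟩
    exact VF.vG_zpow h0 m

end

end Pool.Agent.Lib.MP_65f174_lc.AKE
end
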